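import Pool.Agent.H13.MonoExist

/-!
ROW Hsh (150 lines).  The positive inputs: graphs of random functions that are sums along a graph with unique neighbours.

* `uniq_of_expanding`: let `J` be nonempty, `|J| ≤ c`, and suppose there is no such `m, κ`. Then every block `(κ, v) ∈ blk H J` has at least two `m ∈ J` with
  `H m κ = v`; double counting the pairs `(m, κ)`, `m ∈ J`, `κ : Fin 3` (map `(m, κ) ↦ (κ, H m κ)`; `Finset.card_eq_sum_card_fiberwise` or
  `Finset.card_nsmul_le_card_of_...`): `2 |blk| ≤ 3 |J|`, against `5 |J| ≤ 3 |blk|` (then `10 |J| ≤ 6 |blk| ≤ 9 |J|`, `|J| ≥ 1`).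
* `hash_spread`: induction on `|S|`. If `S` is empty: `cnt ≤ card`. If no `α` has `S ⊆ Yh H α`, the count is `0`. Otherwise the projection
  `S → Fin M` is injective (`mem_Yh` for this `α`), let `J` be its image, `m ∈ J`, `κ` from `hU`, `x = (m, γ) ∈ S`, `S' = S.erase x`. For `g : Γ` let `α + g` be `Function.update α (κ, H m κ) (α (κ, H m κ) + g)`.
  The map `(α, g) ↦ α + g` from `{α | S ⊆ Yh α} × Γ` to `{α | S' ⊆ Yh α}` is well defined (for `(m', γ') ∈ S'`: `m' ≠ m` by injectivity, so `H m' κ ≠ H m κ`, and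
  the block `(κ, H m κ)` does not occur in the sum for `m'`) and injective (the sum at `m` is `γ + g`, so `g` is determined, then `α`).
  Hence `cnt (S ⊆ Yh) * |Γ| ≤ cnt (S' ⊆ Yh)`.
-/

namespace Pool.Agent.H95.MT

open Finset Classical
open H13 (cnt)

variable {M V : ℕ} {Γ : Type} [AddCommGroup Γ] [Fintype Γ] [DecidableEq Γ]

/-- the graph of the function `m ↦ α (0, H m 0) + α (1, H m 1) + α (2, H m 2)` -/
def Yh (H : Fin M → Fin 3 → Fin V) (α : Fin 3 × Fin V → Γ) : Finset (Fin M × Γ) :=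
  univ.image fun m => (m, ∑ κ, α (κ, H m κ))

omit [Fintype Γ] in
theorem mem_Yh {H : Fin M → Fin 3 → Fin V} {α : Fin 3 × Fin V → Γ} {x : Fin M × Γ} :
    x ∈ Yh H α ↔ x.2 = ∑ κ, α (κ, H x.1 κ) := by
  unfold Yh
  rw [Finset.mem_image]
  constructor
  · rintro ⟨m, _, rfl⟩
    rfl
  · intro h
    exact ⟨x.1, Finset.mem_univ _, by rw [← h]⟩

omit [Fintype Γ] in
theorem card_Yh (H : Fin M → Fin 3 → Fin V) (α : Fin 3 × Fin V → Γ) : (Yh H α).card = M := by
  unfold Yh
  rw [Finset.card_image_of_injective]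
  · simp
  · intro m m' h
    exact (Prod.mk.inj h).1

/-- every small nonempty set has a member with a private neighbour -/
def Uniq (H : Fin M → Fin 3 → Fin V) (c : ℕ) : Prop :=
  ∀ J : Finset (Fin M), J.Nonempty → J.card ≤ c → ∃ m ∈ J, ∃ κ, ∀ m' ∈ J, H m' κ = H m κ → m' = m

theorem uniq_of_expanding {H : Fin M → Fin 3 → Fin V} {c : ℕ}
    (hexp : ∀ J : Finset (Fin M), J.card ≤ c → 5 * J.card ≤ 3 * (H13.blk H J).card) :
    Uniq H c := by
  intro J hJ hJc
  by_contra hcon
  push Not at hcon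
  have h1 : (J ×ˢ (univ : Finset (Fin 3))).card = ∑ b ∈ H13.blk H J,
      ((J ×ˢ (univ : Finset (Fin 3))).filter (fun x => (x.2, H x.1 x.2) = b)).card := by
    apply Finset.card_eq_sum_card_fiberwise
    intro x hx
    have hx' := (Finset.mem_product.1 hx).1
    exact H13.mem_blk.2 ⟨x.1, hx', rfl⟩
  have h2 : ∑ _b ∈ H13.blk H J, 2 ≤ ∑ b ∈ H13.blk H J,
      ((J ×ˢ (univ : Finset (Fin 3))).filter (fun x => (x.2, H x.1 x.2) = b)).card := by
    refine Finset.sum_le_sum fun b hb => ?_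
    obtain ⟨m, hm, hmb⟩ := H13.mem_blk.1 hb
    obtain ⟨m', hm', he, hne⟩ := hcon m hm b.1
    refine Finset.one_lt_card.2 ⟨(m, b.1), ?_, (m', b.1), ?_, ?_⟩
    · rw [Finset.mem_filter, Finset.mem_product]
      exact ⟨⟨hm, Finset.mem_univ _⟩, Prod.ext rfl hmb⟩
    · rw [Finset.mem_filter, Finset.mem_product]
      exact ⟨⟨hm', Finset.mem_univ _⟩, Prod.ext rfl (he.trans hmb)⟩
    · intro h
      exact hne (Prod.mk.inj h).1.symm
  rw [← h1, Finset.sum_const, smul_eq_mul, Finset.card_product, Finset.card_univ,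
    Fintype.card_fin] at h2
  have h3 := hexp J hJc
  have h4 := hJ.card_pos
  omega

omit [Fintype Γ] in
theorem Hsh_sum {H : Fin M → Fin 3 → Fin V} (α : Fin 3 × Fin V → Γ) (m : Fin M) (κ₀ : Fin 3)
    (g : Γ) :
    ∑ κ, Function.update α (κ₀, H m κ₀) (α (κ₀, H m κ₀) + g) (κ, H m κ) =
      ∑ κ, α (κ, H m κ) + g := by
  have h1 : ∀ κ, Function.update α (κ₀, H m κ₀) (α (κ₀, H m κ₀) + g) (κ, H m κ) =
      α (κ, H m κ) + if κ = κ₀ then g else 0 := by
    intro κ
    by_cases h : κ = κ₀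
    · subst h
      rw [Function.update_self, if_pos rfl]
    · rw [if_neg h, add_zero, Function.update_of_ne]
      intro h'
      exact h (Prod.mk.inj h').1
  rw [Finset.sum_congr rfl fun κ _ => h1 κ, Finset.sum_add_distrib, Finset.sum_ite_eq' univ κ₀,
    if_pos (Finset.mem_univ _)]

omit [Fintype Γ] in
theorem Hsh_sum' {H : Fin M → Fin 3 → Fin V} (α : Fin 3 × Fin V → Γ) (m m' : Fin M) (κ₀ : Fin 3)
    (hne : H m' κ₀ ≠ H m κ₀) (g : Γ) :
    ∑ κ, Function.update α (κ₀, H m κ₀) g (κ, H m' κ) = ∑ κ, α (κ, H m' κ) := by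
  refine Finset.sum_congr rfl fun κ _ => ?_
  rw [Function.update_of_ne]
  intro h'
  obtain ⟨h1, h2⟩ := Prod.mk.inj h'
  subst h1
  exact hne h2

theorem hash_spread {H : Fin M → Fin 3 → Fin V} {c : ℕ} (hU : Uniq H c)
    (S : Finset (Fin M × Γ)) (hS : S.card ≤ c) :
    cnt (fun α : Fin 3 × Fin V → Γ => S ⊆ Yh H α) * (Fintype.card Γ : ℝ) ^ S.card
      ≤ Fintype.card (Fin 3 × Fin V → Γ) := by
  induction hn : S.card generalizing S with
  | zero =>
    rw [pow_zero, mul_one]
    exact H13.cnt_le_card _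
  | succ n ih =>
    by_cases hex : ∃ α₀ : Fin 3 × Fin V → Γ, S ⊆ Yh H α₀
    swap
    · rw [H13.cnt_eq_zero (fun α h => hex ⟨α, h⟩)]
      simp
    obtain ⟨α₀, hα₀⟩ := hex
    have hinj : ∀ x ∈ S, ∀ x' ∈ S, x.1 = x'.1 → x = x' := by
      intro x hx x' hx' h
      have h1 := mem_Yh.1 (hα₀ hx)
      have h2 := mem_Yh.1 (hα₀ hx')
      apply Prod.ext h
      rw [h1, h2, h]
    have hne : (S.image Prod.fst).Nonempty := by
      rw [Finset.image_nonempty, ← Finset.card_pos]
      omega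
    obtain ⟨m, hm, κ₀, hκ⟩ := hU (S.image Prod.fst) hne (Finset.card_image_le.trans hS)
    obtain ⟨x, hx, hxm⟩ := Finset.mem_image.1 hm
    have hS' : (S.erase x).card = n := by
      rw [Finset.card_erase_of_mem hx]
      omega
    have h1 := ih (S.erase x) (by omega) hS'
    have hkey : cnt (fun α : Fin 3 × Fin V → Γ => S ⊆ Yh H α) * (Fintype.card Γ : ℝ) ≤
        cnt (fun α : Fin 3 × Fin V → Γ => S.erase x ⊆ Yh H α) := by
      rw [H13.cnt_eq_card (fun α : Fin 3 × Fin V → Γ => S ⊆ Yh H α) (fun _ => inferInstance),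
        H13.cnt_eq_card (fun α : Fin 3 × Fin V → Γ => S.erase x ⊆ Yh H α) (fun _ => inferInstance)]
      have h2 : (univ.filter fun α : Fin 3 × Fin V → Γ => S ⊆ Yh H α).card * Fintype.card Γ ≤
          (univ.filter fun α : Fin 3 × Fin V → Γ => S.erase x ⊆ Yh H α).card := by
        rw [← Finset.card_univ, ← Finset.card_product]
        refine Finset.card_le_card_of_injOn
          (fun z => Function.update z.1 (κ₀, H m κ₀) (z.1 (κ₀, H m κ₀) + z.2)) ?_ ?_
        · intro z hz
          have hz1 : S ⊆ Yh H z.1 := (Finset.mem_filter.1 (Finset.mem_product.1 hz).1).2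
          refine Finset.mem_coe.2 (Finset.mem_filter.2 ⟨Finset.mem_univ _, ?_⟩)
          intro x' hx'
          obtain ⟨hne', hx'S⟩ := Finset.mem_erase.1 hx'
          rw [mem_Yh, Hsh_sum' z.1 m x'.1 κ₀ ?_]
          · exact mem_Yh.1 (hz1 hx'S)
          · intro h
            have h3 := hκ x'.1 (Finset.mem_image_of_mem _ hx'S) h
            exact hne' (hinj x' hx'S x hx (h3.trans hxm.symm))
        · intro z hz z' hz' hzz
          have hz1 : S ⊆ Yh H z.1 := (Finset.mem_filter.1 (Finset.mem_product.1 hz).1).2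
          have hz1' : S ⊆ Yh H z'.1 := (Finset.mem_filter.1 (Finset.mem_product.1 hz').1).2
          have h3 := mem_Yh.1 (hz1 hx)
          have h3' := mem_Yh.1 (hz1' hx)
          rw [hxm] at h3 h3'
          have h4 := Hsh_sum (H := H) z.1 m κ₀ z.2
          have h4' := Hsh_sum (H := H) z'.1 m κ₀ z'.2
          have hzz' : Function.update z.1 (κ₀, H m κ₀) (z.1 (κ₀, H m κ₀) + z.2) =
            Function.update z'.1 (κ₀, H m κ₀) (z'.1 (κ₀, H m κ₀) + z'.2) := hzz
          rw [hzz', h4', ← h3, ← h3'] at h4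
          have h5 : z.2 = z'.2 := (add_left_cancel h4).symm
          refine Prod.ext ?_ h5
          funext b
          by_cases hb : b = (κ₀, H m κ₀)
          · subst hb
            have h6 := congrFun hzz' (κ₀, H m κ₀)
            rw [Function.update_self, Function.update_self, h5] at h6
            exact add_right_cancel h6
          · have h6 := congrFun hzz' b
            rwa [Function.update_of_ne hb, Function.update_of_ne hb] at h6
      exact_mod_cast h2
    calc cnt (fun α : Fin 3 × Fin V → Γ => S ⊆ Yh H α) * (Fintype.card Γ : ℝ) ^ (n + 1)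
        = (cnt (fun α : Fin 3 × Fin V → Γ => S ⊆ Yh H α) * (Fintype.card Γ : ℝ)) *
          (Fintype.card Γ : ℝ) ^ n := by ring
      _ ≤ cnt (fun α : Fin 3 × Fin V → Γ => S.erase x ⊆ Yh H α) * (Fintype.card Γ : ℝ) ^ n :=
          mul_le_mul_of_nonneg_right hkey (by positivity)
      _ ≤ _ := h1

end Pool.Agent.H95.MT
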