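import Mathlib

/-!
ROW Ext (70 lines).  Extension of a gate function to all vectors (elementary).

`ext_lo`: Let `M0` be the maximum of `h i` over all `y` (`Finset.univ.sup'`, or `Finset.exists_max_image univ (h i)`).
For `u : Fin s → ℝ` let `P u = univ.filter (fun y => ∀ j ∈ S y, u j ≤ h j y)`.  Let `φ u` be the minimum of `h i` over `P u` if `P u` is nonempty, else `M0`
(`if hP : (P u).Nonempty then (P u).inf' hP (h i) else M0`; or define through `choose` from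
`∀ u, ∃ v, ((∃ y ∈ P u, v = h i y ∧ ∀ y' ∈ P u, h i y ≤ h i y') ∨ (P u = ∅ ∧ v = M0))`).
* `φ (fun j => h j y) = h i y`: `y ∈ P`, and for `y' ∈ P`: `∀ j ∈ S y', h j y ≤ h j y'`, so `h i y ≤ h i y'` by `hS`.
* certificate: if `P u ≠ ∅` with minimiser `y'`, `T = S y'`: `v j ≤ u j ≤ h j y'` on `S y'`, so `y' ∈ P v` and `φ v ≤ h i y' = φ u`.
  If `P u = ∅`: `T = ∅`, `φ v ≤ M0` for all `v`.
`ext_up`: apply `ext_lo` to `fun j y => - h j y` and put `φ u = - φ' (fun j => - u j)`.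
-/

namespace Pool.Agent.H95.MT

variable {Z : Type} [Fintype Z] [Nonempty Z]

theorem ext_lo {s : ℕ} (h : Fin s → Z → ℝ) (i : Fin s) (S : Z → Finset (Fin s))
    (hS : ∀ y y', (∀ j ∈ S y, h j y' ≤ h j y) → h i y' ≤ h i y) :
    ∃ φ : (Fin s → ℝ) → ℝ, (∀ y, φ (fun j => h j y) = h i y) ∧
      ∀ u, ∃ T : Finset (Fin s), (T = ∅ ∨ ∃ y, T = S y) ∧
        ∀ v, (∀ j ∈ T, v j ≤ u j) → φ v ≤ φ u := by
  classical
  obtain ⟨y0, -, hy0⟩ := Finset.exists_max_image (Finset.univ : Finset Z) (h i)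
    Finset.univ_nonempty
  have hex : ∀ u : Fin s → ℝ, ∃ v : ℝ,
      (∃ y, (∀ j ∈ S y, u j ≤ h j y) ∧ v = h i y ∧
        ∀ y', (∀ j ∈ S y', u j ≤ h j y') → h i y ≤ h i y') ∨
      ((∀ y, ¬ ∀ j ∈ S y, u j ≤ h j y) ∧ v = h i y0) := by
    intro u
    by_cases hP : ∃ y, ∀ j ∈ S y, u j ≤ h j y
    · have hne : (Finset.univ.filter (fun y => ∀ j ∈ S y, u j ≤ h j y)).Nonempty := by
        obtain ⟨y, hy⟩ := hP
        exact ⟨y, by simpa using hy⟩
      obtain ⟨y, hy, hmin⟩ := Finset.exists_min_image _ (h i) hne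
      refine ⟨h i y, Or.inl ⟨y, by simpa using hy, rfl, ?_⟩⟩
      intro y' hy'
      exact hmin y' (by simpa using hy')
    · push Not at hP
      refine ⟨h i y0, Or.inr ⟨?_, rfl⟩⟩
      intro y hy
      obtain ⟨j, hj, hlt⟩ := hP y
      exact absurd (hy j hj) (not_le.2 hlt)
  choose φ hφ using hex
  have hle : ∀ u y', (∀ j ∈ S y', u j ≤ h j y') → φ u ≤ h i y' := by
    intro u y' hy'
    rcases hφ u with ⟨y, hy, hv, hmin⟩ | ⟨hno, hv⟩
    · rw [hv]; exact hmin y' hy'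
    · exact absurd hy' (hno y')
  have hM : ∀ u, φ u ≤ h i y0 := by
    intro u
    rcases hφ u with ⟨y, hy, hv, hmin⟩ | ⟨hno, hv⟩
    · rw [hv]; exact hy0 y (Finset.mem_univ _)
    · rw [hv]
  refine ⟨φ, ?_, ?_⟩
  · intro y
    refine le_antisymm (hle _ y (fun j _ => le_rfl)) ?_
    rcases hφ (fun j => h j y) with ⟨y', hy', hv, hmin⟩ | ⟨hno, hv⟩
    · rw [hv]; exact hS y' y hy'
    · exact absurd (fun j _ => le_rfl) (hno y)
  · intro u
    rcases hφ u with ⟨y', hy', hv, hmin⟩ | ⟨hno, hv⟩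
    · refine ⟨S y', Or.inr ⟨y', rfl⟩, ?_⟩
      intro v hvu
      rw [hv]
      exact hle v y' (fun j hj => (hvu j hj).trans (hy' j hj))
    · refine ⟨∅, Or.inl rfl, ?_⟩
      intro v _
      rw [hv]
      exact hM v

theorem ext_up {s : ℕ} (h : Fin s → Z → ℝ) (i : Fin s) (S : Z → Finset (Fin s))
    (hS : ∀ y y', (∀ j ∈ S y, h j y ≤ h j y') → h i y ≤ h i y') :
    ∃ φ : (Fin s → ℝ) → ℝ, (∀ y, φ (fun j => h j y) = h i y) ∧
      ∀ u, ∃ T : Finset (Fin s), (T = ∅ ∨ ∃ y, T = S y) ∧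
        ∀ v, (∀ j ∈ T, u j ≤ v j) → φ u ≤ φ v := by
  obtain ⟨φ, h1, h2⟩ := ext_lo (fun j y => - h j y) i S (fun y y' hy => by
    have := hS y y' (fun j hj => by have := hy j hj; linarith)
    linarith)
  refine ⟨fun u => - φ (fun j => - u j), ?_, ?_⟩
  · intro y
    have := h1 y
    linarith
  · intro u
    obtain ⟨T, hT, hc⟩ := h2 (fun j => - u j)
    refine ⟨T, hT, ?_⟩
    intro v hv
    have := hc (fun j => - v j) (fun j hj => by have := hv j hj; linarith)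
    linarith

end Pool.Agent.H95.MT
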