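import Pool.Agent.H95.MT.Sts
import Pool.Agent.H95.MT.Ext

/-!
All gates of a circuit.
-/

namespace Pool.Agent.H95.MT

open Finset Classical
open H13 (cnt acc Closed)

variable {X : Type} [Fintype X] [DecidableEq X] {Ω A : Type} [Fintype Ω] [Fintype A]

/-- The gates in negated form, as functions of the ground set. -/
def DGate {s : ℕ} (h : Fin s → Finset X → ℝ) (p q : ℕ) (i : Fin s) : Prop :=
  ((∀ x y, x ⊆ y → h i x ≤ h i y) ∧ ∀ x, ∃ W, W ⊆ x ∧ W.card ≤ 1 ∧ h i x ≤ h i W) ∨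
  (∀ y, ∃ S : Finset (Fin s), S.card ≤ p ∧ (∀ j ∈ S, j < i) ∧
    ∀ y', (∀ j ∈ S, h j y' ≤ h j y) → h i y' ≤ h i y) ∨
  (∀ y, ∃ S : Finset (Fin s), S.card ≤ q ∧ (∀ j ∈ S, j < i) ∧
    ∀ y', (∀ j ∈ S, h j y ≤ h j y') → h i y ≤ h i y')

theorem finish {N : Ω → Finset X} {Y : A → Finset X} {L K : ℕ} {p R Q δ : ℝ}
    (hD : Data N Y L K p R Q δ) (f h : Finset X → ℝ) (hmono : ∀ x y, x ⊆ y → h x ≤ h y)
    (BP : A → Prop) (BN : Ω → Prop)
    (hE : ∀ G : Finset X → ℝ, Cl N K δ G → (∀ W, h W ≤ G W) →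
      cnt (fun α => star L G (Y α) < h (Y α)) ≤ (1 / 4) ^ (L + 1) * Fintype.card A)
    (h1 : ∀ α, ¬ BP α → f (Y α) ≤ h (Y α)) (h2 : ∀ w, ¬ BN w → h (N w) ≤ f (N w)) :
    ∃ (G : Finset X → ℝ) (EP : A → Prop) (EN : Ω → Prop), Cl N K δ G ∧
      cnt EP ≤ (1 / 4) ^ L * Fintype.card A ∧ cnt EN ≤ (1 / 4) ^ L * Fintype.card Ω ∧
      (∀ α, ¬ (BP α ∨ EP α) → f (Y α) ≤ star L G (Y α)) ∧
      ∀ w, ¬ (BN w ∨ EN w) → star K G (N w) ≤ f (N w) := by
  obtain ⟨G, hG, hcl, hcnt⟩ := clo_real N K δ hD.hδ hD.hδ1 hD.hΩ h hmono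
  refine ⟨G, fun α => star L G (Y α) < h (Y α), fun w => h (N w) < star K G (N w), hcl, ?_, ?_,
    ?_, ?_⟩
  · refine (hE G hcl hG).trans (mul_le_mul_of_nonneg_right ?_ (by positivity))
    exact pow_le_pow_of_le_one (by norm_num) (by norm_num) (Nat.le_succ L)
  · refine hcnt.trans ?_
    rw [← mul_assoc]
    exact mul_le_mul_of_nonneg_right hD.hneg (by positivity)
  · intro α hα
    rw [not_or, not_lt] at hα
    exact (h1 α hα.1).trans hα.2
  · intro w hw
    rw [not_or, not_lt] at hw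
    exact hw.2.trans (h2 w hw.1)

theorem one_gate {N : Ω → Finset X} {Y : A → Finset X} {L K : ℕ} {R Q δ : ℝ} {p q : ℕ}
    (hD : Data N Y L K (p : ℝ) R Q δ) (hq : 1 ≤ q) (hK : (q + 1) * L ≤ K) {s : ℕ}
    (h : Fin s → Finset X → ℝ) (i : Fin s) (hi : DGate h p q i) (F : Fin s → Finset X → ℝ)
    (hF : ∀ j, Cl N K δ (F j)) (BP : A → Prop) (BN : Ω → Prop)
    (hP : ∀ j, j < i → ∀ α, ¬ BP α → h j (Y α) ≤ star L (F j) (Y α))
    (hN : ∀ j, j < i → ∀ w, ¬ BN w → star K (F j) (N w) ≤ h j (N w)) :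
    ∃ (G : Finset X → ℝ) (EP : A → Prop) (EN : Ω → Prop), Cl N K δ G ∧
      cnt EP ≤ (1 / 4) ^ L * Fintype.card A ∧ cnt EN ≤ (1 / 4) ^ L * Fintype.card Ω ∧
      (∀ α, ¬ (BP α ∨ EP α) → h i (Y α) ≤ star L G (Y α)) ∧
      ∀ w, ¬ (BN w ∨ EN w) → star K G (N w) ≤ h i (N w) := by
  have hL := hD.hL
  have hLK : L ≤ K := by
    have : 1 * L ≤ (q + 1) * L := Nat.mul_le_mul_right _ (by omega)
    omega
  have h2L : 2 * L ≤ K := by
    have : 2 * L ≤ (q + 1) * L := Nat.mul_le_mul_right _ (by omega)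
    omega
  have hqL : q * L + L ≤ K := by
    have : (q + 1) * L = q * L + L := by ring
    omega
  rcases hi with ⟨hm, hc⟩ | hi | hi
  · refine finish hD (h i) (h i) hm BP BN (fun G hcl hG => ?_) (fun _ _ => le_rfl)
      (fun _ _ => le_rfl)
    refine step_up hD (K0 := L) (by omega) (h i) ?_ G hcl hG
    intro x
    obtain ⟨W, h1, h2, h3⟩ := hc x
    exact ⟨W, h1, h2.trans hL, h3⟩
  · choose S hSc hSi hS using hi
    obtain ⟨φ, hφ1, hφ2⟩ := ext_lo h i S hS
    have hT : ∀ u, ∃ T : Finset (Fin s), T.card ≤ p ∧ (∀ j ∈ T, j < i) ∧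
        ∀ v, (∀ j ∈ T, v j ≤ u j) → φ v ≤ φ u := by
      intro u
      obtain ⟨T, hT, hv⟩ := hφ2 u
      rcases hT with rfl | ⟨y, rfl⟩
      · exact ⟨∅, by simp, by simp, hv⟩
      · exact ⟨S y, hSc y, hSi y, hv⟩
    refine finish hD (h i) (fun x => φ fun j => star L (F j) x) ?_ BP BN (fun G hcl hG => ?_) ?_ ?_
    · intro x y hxy
      obtain ⟨T, _, _, hv⟩ := hT fun j => star L (F j) y
      exact hv _ fun j _ => star_mono (F j) hxy
    · refine step_lo hD h2L F hF _ ?_ G hG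
      intro U
      obtain ⟨T, hTc, _, hv⟩ := hT fun j => star L (F j) U
      exact ⟨T, by exact_mod_cast hTc, fun x hx => hv _ hx⟩
    · intro α hα
      obtain ⟨T, _, hTi, hv⟩ := hT fun j => star L (F j) (Y α)
      rw [← hφ1 (Y α)]
      exact hv _ fun j hj => hP j (hTi j hj) α hα
    · intro w hw
      obtain ⟨T, _, hTi, hv⟩ := hT fun j => h j (N w)
      rw [← hφ1 (N w)]
      exact hv _ fun j hj => (star_le hLK (F j) (N w)).trans (hN j (hTi j hj) w hw)
  · choose S hSc hSi hS using hi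
    obtain ⟨φ, hφ1, hφ2⟩ := ext_up h i S hS
    have hT : ∀ u, ∃ T : Finset (Fin s), T.card ≤ q ∧ (∀ j ∈ T, j < i) ∧
        ∀ v, (∀ j ∈ T, u j ≤ v j) → φ u ≤ φ v := by
      intro u
      obtain ⟨T, hT, hv⟩ := hφ2 u
      rcases hT with rfl | ⟨y, rfl⟩
      · exact ⟨∅, by simp, by simp, hv⟩
      · exact ⟨S y, hSc y, hSi y, hv⟩
    refine finish hD (h i) (fun x => φ fun j => star L (F j) x) ?_ BP BN (fun G hcl hG => ?_) ?_ ?_
    · intro x y hxy
      obtain ⟨T, _, _, hv⟩ := hT fun j => star L (F j) x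
      exact hv _ fun j _ => star_mono (F j) hxy
    · refine step_up hD hqL _ ?_ G hcl hG
      intro x
      obtain ⟨T, hTc, _, hv⟩ := hT fun j => star L (F j) x
      choose W hW hWc hWe using fun j => star_eq (L := L) (F j) x
      refine ⟨T.biUnion W, Finset.biUnion_subset.2 fun j _ => hW j, ?_, ?_⟩
      · calc (T.biUnion W).card ≤ ∑ j ∈ T, (W j).card := Finset.card_biUnion_le
          _ ≤ ∑ _j ∈ T, L := Finset.sum_le_sum fun j _ => hWc j
          _ = T.card * L := by rw [Finset.sum_const, smul_eq_mul]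
          _ ≤ q * L := Nat.mul_le_mul_right _ hTc
      · refine hv _ fun j hj => ?_
        exact (hWe j).le.trans (le_star (F j) (Finset.subset_biUnion_of_mem W hj) (hWc j))
    · intro α hα
      obtain ⟨T, _, hTi, hv⟩ := hT fun j => h j (Y α)
      rw [← hφ1 (Y α)]
      exact hv _ fun j hj => hP j (hTi j hj) α hα
    · intro w hw
      obtain ⟨T, _, hTi, hv⟩ := hT fun j => star L (F j) (N w)
      rw [← hφ1 (N w)]
      exact hv _ fun j hj => (star_le hLK (F j) (N w)).trans (hN j (hTi j hj) w hw)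

theorem gates {N : Ω → Finset X} {Y : A → Finset X} {L K : ℕ} {R Q δ : ℝ} {p q : ℕ}
    (hD : Data N Y L K (p : ℝ) R Q δ) (hq : 1 ≤ q) (hK : (q + 1) * L ≤ K) {s : ℕ}
    (h : Fin s → Finset X → ℝ) (hg : ∀ i, DGate h p q i) (m : ℕ) :
    ∃ (F : Fin s → Finset X → ℝ) (BP : A → Prop) (BN : Ω → Prop), (∀ i, Cl N K δ (F i)) ∧
      cnt BP ≤ m * ((1 / 4) ^ L * Fintype.card A) ∧
      cnt BN ≤ m * ((1 / 4) ^ L * Fintype.card Ω) ∧
      (∀ i : Fin s, i.1 < m → ∀ α, ¬ BP α → h i (Y α) ≤ star L (F i) (Y α)) ∧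
      ∀ i : Fin s, i.1 < m → ∀ w, ¬ BN w → star K (F i) (N w) ≤ h i (N w) := by
  induction m with
  | zero =>
    obtain ⟨G, _, hG, _⟩ := clo_real N K δ hD.hδ hD.hδ1 hD.hΩ (fun _ => 0) (fun _ _ _ => le_rfl)
    refine ⟨fun _ => G, fun _ => False, fun _ => False, fun _ => hG, ?_, ?_, ?_, ?_⟩
    · rw [H13.cnt_eq_zero (fun _ h => h)]
      simp
    · rw [H13.cnt_eq_zero (fun _ h => h)]
      simp
    · intro i hi
      omega
    · intro i hi
      omega
  | succ m ih =>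
    obtain ⟨F, BP, BN, hF, hBP, hBN, hP, hN⟩ := ih
    by_cases hm : m < s
    · obtain ⟨G, EP, EN, hG, hEP, hEN, h1, h2⟩ := one_gate hD hq hK h ⟨m, hm⟩ (hg _) F hF BP BN
        (fun j hj => hP j hj) (fun j hj => hN j hj)
      refine ⟨Function.update F ⟨m, hm⟩ G, fun α => BP α ∨ EP α, fun w => BN w ∨ EN w, ?_, ?_, ?_,
        ?_, ?_⟩
      · intro i
        by_cases hi : i = ⟨m, hm⟩
        · rw [hi, Function.update_self]
          exact hG
        · rw [Function.update_of_ne hi]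
          exact hF i
      · refine (H13.cnt_or _ _).trans ?_
        push_cast
        linarith
      · refine (H13.cnt_or _ _).trans ?_
        push_cast
        linarith
      · intro i him α hα
        by_cases hi : i = ⟨m, hm⟩
        · rw [hi, Function.update_self]
          exact h1 α hα
        · rw [Function.update_of_ne hi]
          have : i.1 ≠ m := fun h => hi (Fin.ext h)
          exact hP i (by omega) α fun h => hα (Or.inl h)
      · intro i him w hw
        by_cases hi : i = ⟨m, hm⟩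
        · rw [hi, Function.update_self]
          exact h2 w hw
        · rw [Function.update_of_ne hi]
          have : i.1 ≠ m := fun h => hi (Fin.ext h)
          exact hN i (by omega) w fun h => hw (Or.inl h)
    · refine ⟨F, BP, BN, hF, ?_, ?_, ?_, ?_⟩
      · refine hBP.trans (mul_le_mul_of_nonneg_right ?_ (by positivity))
        push_cast
        linarith
      · refine hBN.trans (mul_le_mul_of_nonneg_right ?_ (by positivity))
        push_cast
        linarith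
      · intro i _
        exact hP i (by omega)
      · intro i _
        exact hN i (by omega)

/-- The lower bound given by the approximation method. -/
theorem core {N : Ω → Finset X} {Y : A → Finset X} {L K : ℕ} {R Q δ : ℝ} {p q : ℕ}
    (hD : Data N Y L K (p : ℝ) R Q δ) (hq : 1 ≤ q) (hK : (q + 1) * L ≤ K) {s : ℕ}
    (h : Fin s → Finset X → ℝ) (hg : ∀ i, DGate h p q i) (out : Fin s) (t : ℝ)
    (hpos1 : ∀ α, t < h out (Y α))
    (hneg1 : cnt (fun w => t < h out (N w)) ≤ 1 / 2 * Fintype.card Ω) : 4 ^ L ≤ 2 * s := by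
  obtain ⟨F, BP, BN, hF, hBP, hBN, hP, hN⟩ := gates hD hq hK h hg s
  have hA : (0 : ℝ) < Fintype.card A := by exact_mod_cast hD.hA
  have hΩ : (0 : ℝ) < Fintype.card Ω := by exact_mod_cast hD.hΩ
  have hL := hD.hL
  have h2L : L + L ≤ K := by
    have : 2 * L ≤ (q + 1) * L := Nat.mul_le_mul_right _ (by omega)
    omega
  have key : ∀ c : ℝ, 1 / 2 * c ≤ s * ((1 / 4) ^ L * c) → 0 < c → (4 : ℝ) ^ L ≤ 2 * s := by
    intro c hc hc0
    have h1 : (1 / 2 : ℝ) ≤ s * (1 / 4) ^ L := by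
      have : 1 / 2 * c ≤ (s * (1 / 4) ^ L) * c := by rw [mul_assoc]; exact hc
      exact le_of_mul_le_mul_right this hc0
    have h2 : (4 : ℝ) ^ L * (1 / 4) ^ L = 1 := by
      rw [← mul_pow]
      norm_num
    have h3 : (0 : ℝ) < 4 ^ L := by positivity
    nlinarith
  suffices hfin : (4 : ℝ) ^ L ≤ 2 * s by exact_mod_cast hfin
  by_cases hacc : acc (lev K (F out) t) ∅
  · refine key _ ?_ hΩ
    have h1 : cnt (fun _ : Ω => True) ≤ cnt BN + cnt (fun w => t < h out (N w)) := by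
      refine (H13.cnt_mono ?_).trans (H13.cnt_or _ _)
      intro w _
      by_cases hw : BN w
      · exact Or.inl hw
      · right
        rw [acc_lev] at hacc
        exact (hacc.trans_le (star_mono (F out) (Finset.empty_subset _))).trans_le
          (hN out out.2 w hw)
    rw [H13.cnt_true] at h1
    linarith
  · refine key _ ?_ hA
    obtain ⟨𝓜, hM1, hM2, hM3⟩ := next_pieces N K δ R hD.hR hD.hcover _ (hF out t) ∅ hacc L
      (by rw [Finset.card_empty]; omega)
    have hp1 := hD.hp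
    have hR := hD.hR
    have h1 : cnt (fun α => ∃ W ∈ lev K (F out) t, W.card ≤ L ∧ W ⊆ Y α) ≤
        (1 / 4) ^ (0 + 1) * Fintype.card A := by
      refine chain_count Y _ 0 L p R Q hD.hp hD.hR hD.hQ (fun S hS => hD.hpos S (by omega))
        (fun _ => 𝓜) ?_ ?_ ?_
      · intro U hU Z hZ
        have hU0 : U = ∅ := Finset.card_eq_zero.1 (by omega)
        rw [hU0]
        exact hM1 Z hZ
      · intro U _ a ha
        exact (hM2 a ha).trans (le_mul_of_one_le_left (by positivity) hp1)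
      · rintro α ⟨W, hW, hWc, hWY⟩ U _ _
        obtain ⟨Z, hZ, hZW⟩ := hM3 W hW hWc
        exact ⟨Z, hZ, hZW.trans hWY⟩
    have h2 : cnt (fun _ : A => True) ≤ cnt BP +
        cnt (fun α => ∃ W ∈ lev K (F out) t, W.card ≤ L ∧ W ⊆ Y α) := by
      refine (H13.cnt_mono ?_).trans (H13.cnt_or _ _)
      intro α _
      by_cases hα : BP α
      · exact Or.inl hα
      · right
        have h3 := (hpos1 α).trans_le (hP out out.2 α hα)
        obtain ⟨W, hW, hWc, he⟩ := star_eq (L := L) (F out) (Y α)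
        rw [he] at h3
        exact ⟨W, mem_lev.2 ⟨by omega, h3⟩, hWc, hW⟩
    rw [H13.cnt_true] at h2
    norm_num at h1
    linarith

end Pool.Agent.H95.MT
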