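import Pool.Agent.H95.MT.Star

/-!
ROW Clo (130 lines).  Closure of a real valued monotone function.

* `clo_set`: copy `H13.closure_exists` (Pool/Agent/H13/Mono.lean) with `𝓒` restricted to the `B` disjoint from `F`
  (`B ⊆ univ.filter (card ≤ K) \ F`); a new `T` with `¬ acc (F ∪ B) T` is not in `F` (else `acc` by `T ⊆ T`), so the maximality
  argument is unchanged, and `(G \ F) = B` gives the refined bound.
* `clo_fam` : induction with `Finset.induction_on_min` on `T`: for the new `a < ` all of `T` let `U = T.biUnion G`,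
  `F0 = U ∪ {W | card ≤ K, a ≤ h W}`, `Ga` from `clo_set` applied to `F0`, new family `Function.update G a Ga`.
  The event `∃ t ∈ insert a T, acc (G' t) (N w) ∧ h (N w) < t` is contained in the old event or `acc Ga (N w) ∧ ¬ acc F0 (N w)`:
  if `acc Ga (N w)`, `h (N w) < a` and `S ∈ F0`, `S ⊆ N w`: either `S ∈ G t` for some `t ∈ T` and `h (N w) < a < t` (old event) or
  `a ≤ h S ≤ h (N w)`, contradiction.  Count: `|U| + |Ga \ F0| ≤ |F0| + |Ga \ F0| = |Ga| ≤ |(insert a T).biUnion G'|`.
  (`cnt_or`, `cnt_mono`.) Closedness, monotonicity in `t`: `G t ⊆ U ⊆ F0 ⊆ Ga`.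
* `clo_real`: `T = univ.image h`. For small `W` let `F W = ` the largest `t ∈ T` with `W ∈ G t` (it exists: `t = h W`; `Finset.exists_max_image`
  or `sup'` of `T.filter (W ∈ G ·)`), for the others `F W = h W`. Then `h W ≤ F W`. For `t : ℝ`: `lev K F t = {W small | ∃ t' ∈ T, t < t' ∧ W ∈ G t'}`.
  If some `t' ∈ T` has `t < t'`, let `t₁` be the least such (`Finset.exists_min_image`); then `lev K F t = G t₁` is closed. If none,
  `lev K F t = ∅`, which is closed because `cnt (¬ acc ∅ _) = card Ω > δ card Ω` (`H13.cnt_true`).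
  If `h (N w) < star K F (N w) = F W`, `W ⊆ N w` small: `t := F W ∈ T`, `W ∈ G t`: the event of `clo_fam`. Its measure is at most
  `|T.biUnion G| δ |Ω|`, and `T.biUnion G ⊆ {card ≤ K}`.
-/

namespace Pool.Agent.H95.MT

open Finset Classical
open H13 (cnt acc Closed)

variable {X : Type} [Fintype X] [DecidableEq X] {Ω : Type} [Fintype Ω]

theorem clo_set (N : Ω → Finset X) (K : ℕ) (δ : ℝ) (hδ : 0 ≤ δ) (F : Finset (Finset X))
    (hF : ∀ S ∈ F, S.card ≤ K) :
    ∃ G : Finset (Finset X), F ⊆ G ∧ Closed N K δ G ∧ (∀ S ∈ G, S.card ≤ K) ∧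
      cnt (fun w => acc G (N w) ∧ ¬ acc F (N w)) ≤ ((G \ F).card : ℝ) * (δ * Fintype.card Ω) := by
  set 𝓒 : Finset (Finset (Finset X)) :=
    (((univ.filter (fun T : Finset X => T.card ≤ K)) \ F).powerset).filter
      (fun B => cnt (fun w => acc (F ∪ B) (N w) ∧ ¬ acc F (N w))
        ≤ (B.card : ℝ) * (δ * Fintype.card Ω)) with h𝓒
  have hne : 𝓒.Nonempty := by
    refine ⟨∅, ?_⟩
    rw [h𝓒, Finset.mem_filter]
    refine ⟨Finset.empty_mem_powerset _, ?_⟩
    rw [H13.cnt_eq_zero]
    · simp
    · intro w h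
      rw [Finset.union_empty] at h
      exact h.2 h.1
  obtain ⟨B, hB, hmax⟩ := Finset.exists_max_image 𝓒 (fun B => B.card) hne
  rw [h𝓒, Finset.mem_filter, Finset.mem_powerset] at hB
  obtain ⟨hBc, hBcnt⟩ := hB
  refine ⟨F ∪ B, Finset.subset_union_left, ?_, ?_, ?_⟩
  · intro T hT hcnt
    by_contra hno
    have hTB : T ∉ B := by
      intro h
      exact hno ⟨T, Finset.mem_union_right _ h, Finset.Subset.refl _⟩
    have hTF : T ∉ F := by
      intro h
      exact hno ⟨T, Finset.mem_union_left _ h, Finset.Subset.refl _⟩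
    have hmem : insert T B ∈ 𝓒 := by
      rw [h𝓒, Finset.mem_filter, Finset.mem_powerset]
      refine ⟨?_, ?_⟩
      · intro S hS
        rw [Finset.mem_insert] at hS
        rcases hS with rfl | hS
        · exact Finset.mem_sdiff.2 ⟨H13.mem_ufilter.2 hT, hTF⟩
        · exact hBc hS
      · rw [Finset.card_insert_of_notMem hTB]
        have h1 : cnt (fun w => acc (F ∪ insert T B) (N w) ∧ ¬ acc F (N w))
            ≤ cnt (fun w => (acc (F ∪ B) (N w) ∧ ¬ acc F (N w)) ∨ ¬ acc (F ∪ B) (N w ∪ T)) := by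
          apply H13.cnt_mono
          rintro w ⟨⟨S, hS, hSN⟩, hnF⟩
          by_cases hacc : acc (F ∪ B) (N w)
          · exact Or.inl ⟨hacc, hnF⟩
          · right
            have hST : S = T := by
              rw [Finset.mem_union, Finset.mem_insert] at hS
              rcases hS with hS | hS | hS
              · exact absurd ⟨S, hS, hSN⟩ hnF
              · exact hS
              · exact absurd ⟨S, Finset.mem_union_right _ hS, hSN⟩ hacc
            rw [hST] at hSN
            rwa [Finset.union_eq_left.2 hSN]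
        refine h1.trans ((H13.cnt_or _ _).trans ?_)
        push_cast
        linarith
    have h2 := hmax _ hmem
    rw [Finset.card_insert_of_notMem hTB] at h2
    omega
  · intro S hS
    rw [Finset.mem_union] at hS
    rcases hS with hS | hS
    · exact hF S hS
    · exact (Finset.mem_filter.1 (Finset.mem_sdiff.1 (hBc hS)).1).2
  · have hd : (F ∪ B) \ F = B := by
      ext S
      rw [Finset.mem_sdiff, Finset.mem_union]
      constructor
      · rintro ⟨h | h, h'⟩
        · exact absurd h h'
        · exact h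
      · intro h
        exact ⟨Or.inr h, (Finset.mem_sdiff.1 (hBc h)).2⟩
    rw [hd]
    exact hBcnt

theorem clo_fam (N : Ω → Finset X) (K : ℕ) (δ : ℝ) (hδ : 0 ≤ δ) (h : Finset X → ℝ)
    (hmono : ∀ x y, x ⊆ y → h x ≤ h y) (T : Finset ℝ) :
    ∃ G : ℝ → Finset (Finset X), (∀ t ∈ T, ∀ t' ∈ T, t ≤ t' → G t' ⊆ G t) ∧
      (∀ t ∈ T, Closed N K δ (G t)) ∧ (∀ t ∈ T, ∀ S ∈ G t, S.card ≤ K) ∧
      (∀ t ∈ T, ∀ W : Finset X, W.card ≤ K → t ≤ h W → W ∈ G t) ∧
      cnt (fun w => ∃ t ∈ T, acc (G t) (N w) ∧ h (N w) < t) ≤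
        ((T.biUnion G).card : ℝ) * (δ * Fintype.card Ω) := by
  have hx : 0 ≤ δ * (Fintype.card Ω : ℝ) := mul_nonneg hδ (Nat.cast_nonneg _)
  induction T using Finset.induction_on_min with
  | empty =>
    refine ⟨fun _ => ∅, ?_, ?_, ?_, ?_, ?_⟩
    · intro t ht; simp at ht
    · intro t ht; simp at ht
    · intro t ht; simp at ht
    · intro t ht; simp at ht
    · rw [H13.cnt_eq_zero]
      · exact mul_nonneg (Nat.cast_nonneg _) hx
      · rintro w ⟨t, ht, _⟩
        simp at ht
  | insert a T ha ih =>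
    obtain ⟨G, h1, h2, h3, h4, h5⟩ := ih
    set U : Finset (Finset X) := T.biUnion G with hU
    set F0 : Finset (Finset X) :=
      U ∪ univ.filter (fun W : Finset X => W.card ≤ K ∧ a ≤ h W) with hF0
    have hF0c : ∀ S ∈ F0, S.card ≤ K := by
      intro S hS
      rw [hF0, Finset.mem_union] at hS
      rcases hS with hS | hS
      · rw [hU, Finset.mem_biUnion] at hS
        obtain ⟨t, ht, hSt⟩ := hS
        exact h3 t ht S hSt
      · exact (Finset.mem_filter.1 hS).2.1
    obtain ⟨Ga, g1, g2, g3, g4⟩ := clo_set N K δ hδ F0 hF0c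
    have hUF : U ⊆ F0 := Finset.subset_union_left
    have hGU : ∀ t ∈ T, G t ⊆ U := fun t ht => Finset.subset_biUnion_of_mem G ht
    have hna : ∀ t ∈ T, t ≠ a := fun t ht => (ha t ht).ne'
    have hGa : ∀ t ∈ T, (if t = a then Ga else G t) = G t := fun t ht => if_neg (hna t ht)
    have hGaa : (if a = a then Ga else G a) = Ga := if_pos rfl
    refine ⟨fun t => if t = a then Ga else G t, ?_, ?_, ?_, ?_, ?_⟩
    · intro t ht t' ht' htt
      show (if t' = a then Ga else G t') ⊆ (if t = a then Ga else G t)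
      rw [Finset.mem_insert] at ht ht'
      rcases ht with rfl | ht
      · rw [hGaa]
        rcases ht' with rfl | ht'
        · rw [hGaa]
        · rw [hGa t' ht']
          exact (hGU t' ht').trans (hUF.trans g1)
      · rcases ht' with rfl | ht'
        · exact absurd htt (not_le.2 (ha t ht))
        · rw [hGa t ht, hGa t' ht']
          exact h1 t ht t' ht' htt
    · intro t ht
      show Closed N K δ (if t = a then Ga else G t)
      rw [Finset.mem_insert] at ht
      rcases ht with rfl | ht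
      · rw [hGaa]; exact g2
      · rw [hGa t ht]; exact h2 t ht
    · intro t ht S hS
      have hS' : S ∈ (if t = a then Ga else G t) := hS
      rw [Finset.mem_insert] at ht
      rcases ht with rfl | ht
      · rw [hGaa] at hS'; exact g3 S hS'
      · rw [hGa t ht] at hS'; exact h3 t ht S hS'
    · intro t ht W hW htW
      show W ∈ (if t = a then Ga else G t)
      rw [Finset.mem_insert] at ht
      rcases ht with rfl | ht
      · rw [hGaa]
        exact g1 (Finset.mem_union_right _ (H13.mem_ufilter.2 ⟨hW, htW⟩))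
      · rw [hGa t ht]; exact h4 t ht W hW htW
    · have e1 : cnt (fun w => ∃ t ∈ insert a T, acc (if t = a then Ga else G t) (N w) ∧ h (N w) < t)
          ≤ cnt (fun w => (∃ t ∈ T, acc (G t) (N w) ∧ h (N w) < t) ∨
            (acc Ga (N w) ∧ ¬ acc F0 (N w))) := by
        apply H13.cnt_mono
        rintro w ⟨t, ht, hacc, hlt⟩
        rw [Finset.mem_insert] at ht
        rcases ht with rfl | ht
        · rw [hGaa] at hacc
          by_cases hF : acc F0 (N w)
          · left
            obtain ⟨S, hS, hSN⟩ := hF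
            rw [hF0, Finset.mem_union] at hS
            rcases hS with hS | hS
            · rw [hU, Finset.mem_biUnion] at hS
              obtain ⟨t', ht', hSt⟩ := hS
              exact ⟨t', ht', ⟨S, hSt, hSN⟩, hlt.trans (ha t' ht')⟩
            · have h6 := (Finset.mem_filter.1 hS).2.2
              have h7 := hmono S (N w) hSN
              exact absurd hlt (not_lt.2 (h6.trans h7))
          · exact Or.inr ⟨hacc, hF⟩
        · rw [hGa t ht] at hacc
          exact Or.inl ⟨t, ht, hacc, hlt⟩
      refine e1.trans ((H13.cnt_or _ _).trans ?_)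
      have e2 : (U.card : ℝ) + ((Ga \ F0).card : ℝ) ≤
          (((insert a T).biUnion (fun t => if t = a then Ga else G t)).card : ℝ) := by
        have e3 : Ga ⊆ (insert a T).biUnion (fun t => if t = a then Ga else G t) := by
          intro S hS
          refine Finset.mem_biUnion.2 ⟨a, Finset.mem_insert_self _ _, ?_⟩
          show S ∈ (if a = a then Ga else G a)
          rw [hGaa]; exact hS
        have e4 := Finset.card_le_card e3
        have e5 := Finset.card_sdiff_add_card_eq_card g1
        have e6 := Finset.card_le_card hUF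
        have e7 : U.card + (Ga \ F0).card ≤
            ((insert a T).biUnion (fun t => if t = a then Ga else G t)).card := by omega
        exact_mod_cast e7
      calc cnt (fun w => ∃ t ∈ T, acc (G t) (N w) ∧ h (N w) < t) +
            cnt (fun w => acc Ga (N w) ∧ ¬ acc F0 (N w))
          ≤ (U.card : ℝ) * (δ * Fintype.card Ω) + ((Ga \ F0).card : ℝ) * (δ * Fintype.card Ω) :=
            add_le_add h5 g4
        _ = ((U.card : ℝ) + ((Ga \ F0).card : ℝ)) * (δ * Fintype.card Ω) := by ring
        _ ≤ _ := mul_le_mul_of_nonneg_right e2 hx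

theorem clo_real (N : Ω → Finset X) (K : ℕ) (δ : ℝ) (hδ : 0 ≤ δ) (hδ1 : δ < 1)
    (hΩ : 0 < Fintype.card Ω) (h : Finset X → ℝ) (hmono : ∀ x y, x ⊆ y → h x ≤ h y) :
    ∃ F : Finset X → ℝ, (∀ W, h W ≤ F W) ∧ Cl N K δ F ∧
      cnt (fun w => h (N w) < star K F (N w)) ≤
        ((univ.filter (fun T : Finset X => T.card ≤ K)).card : ℝ) * (δ * Fintype.card Ω) := by
  have hx : 0 ≤ δ * (Fintype.card Ω : ℝ) := mul_nonneg hδ (Nat.cast_nonneg _)
  obtain ⟨G, h1, h2, h3, h4, h5⟩ := clo_fam N K δ hδ h hmono (univ.image h)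
  have hT : ∀ W, h W ∈ (univ : Finset (Finset X)).image h :=
    fun W => Finset.mem_image_of_mem h (Finset.mem_univ W)
  have hex : ∀ W : Finset X, ∃ v : ℝ, (W.card ≤ K → v ∈ (univ : Finset (Finset X)).image h ∧
      W ∈ G v ∧ ∀ t ∈ (univ : Finset (Finset X)).image h, W ∈ G t → t ≤ v) ∧
      (¬ W.card ≤ K → v = h W) := by
    intro W
    by_cases hW : W.card ≤ K
    · have hne : (((univ : Finset (Finset X)).image h).filter (fun t => W ∈ G t)).Nonempty :=
        ⟨h W, Finset.mem_filter.2 ⟨hT W, h4 _ (hT W) W hW le_rfl⟩⟩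
      obtain ⟨v, hv, hmax⟩ := Finset.exists_max_image _ (fun t : ℝ => t) hne
      rw [Finset.mem_filter] at hv
      exact ⟨v, fun _ => ⟨hv.1, hv.2, fun t ht htW => hmax t (Finset.mem_filter.2 ⟨ht, htW⟩)⟩,
        fun hn => absurd hW hn⟩
    · exact ⟨h W, fun hn => absurd hn hW, fun _ => rfl⟩
  choose F hF using hex
  refine ⟨F, ?_, ?_, ?_⟩
  · intro W
    by_cases hW : W.card ≤ K
    · exact ((hF W).1 hW).2.2 _ (hT W) (h4 _ (hT W) W hW le_rfl)
    · rw [(hF W).2 hW]
  · intro t
    by_cases hex : ∃ t' ∈ (univ : Finset (Finset X)).image h, t < t'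
    · have hne : (((univ : Finset (Finset X)).image h).filter (fun t' => t < t')).Nonempty := by
        obtain ⟨t', ht', hlt⟩ := hex
        exact ⟨t', Finset.mem_filter.2 ⟨ht', hlt⟩⟩
      obtain ⟨t₁, ht₁, hmin⟩ := Finset.exists_min_image _ (fun t : ℝ => t) hne
      rw [Finset.mem_filter] at ht₁
      have he : lev K F t = G t₁ := by
        ext W
        rw [mem_lev]
        constructor
        · rintro ⟨hW, hlt⟩
          have hv := (hF W).1 hW
          have hle : t₁ ≤ F W := hmin _ (Finset.mem_filter.2 ⟨hv.1, hlt⟩)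
          exact h1 t₁ ht₁.1 _ hv.1 hle hv.2.1
        · intro hW
          have hc := h3 t₁ ht₁.1 W hW
          exact ⟨hc, ht₁.2.trans_le (((hF W).1 hc).2.2 t₁ ht₁.1 hW)⟩
      rw [he]
      exact h2 t₁ ht₁.1
    · have he : lev K F t = ∅ := by
        refine Finset.eq_empty_of_forall_notMem (fun W hW => ?_)
        rw [mem_lev] at hW
        exact hex ⟨F W, ((hF W).1 hW.1).1, hW.2⟩
      rw [he]
      intro S _ hcnt
      exfalso
      have hall : cnt (fun _ : Ω => True) ≤
          cnt (fun w : Ω => ¬ acc (∅ : Finset (Finset X)) (N w ∪ S)) := by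
        apply H13.cnt_mono
        rintro w _ ⟨S', hS', _⟩
        simp at hS'
      rw [H13.cnt_true] at hall
      have hΩ' : (0 : ℝ) < Fintype.card Ω := by exact_mod_cast hΩ
      have := hall.trans hcnt
      nlinarith
  · have e1 : cnt (fun w => h (N w) < star K F (N w)) ≤
        cnt (fun w => ∃ t ∈ (univ : Finset (Finset X)).image h, acc (G t) (N w) ∧ h (N w) < t) := by
      apply H13.cnt_mono
      intro w hw
      obtain ⟨W, hWN, hW, he⟩ := star_eq (L := K) F (N w)
      rw [he] at hw
      have hv := (hF W).1 hW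
      exact ⟨F W, hv.1, ⟨W, hv.2.1, hWN⟩, hw⟩
    refine e1.trans (h5.trans (mul_le_mul_of_nonneg_right ?_ hx))
    rw [Nat.cast_le]
    apply Finset.card_le_card
    intro S hS
    rw [Finset.mem_biUnion] at hS
    obtain ⟨t, ht, hSt⟩ := hS
    exact H13.mem_ufilter.2 (h3 t ht S hSt)

end Pool.Agent.H95.MT
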