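import Pool.Agent.H13.Sat

/-!
Circuits whose gates are real valued monotone functions with small certificates.
-/

namespace Pool.Agent.H95.MT

/-- A circuit with `s` gates whose input is a finite set `F` of elements of `Y`, in topological
order. Gate `i` has the real value `val i F`. Every gate is of one of the following kinds:
* a test of one element: the value is `1` if a fixed element belongs to the input set, else `0`;
* a gate with lower certificates of size at most `p`: for every input `F` there is a set `S` of at
  most `p` earlier gates such that on every input `F'` on which no gate of `S` has a smaller value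
  than on `F`, the gate itself has no smaller value than on `F`;
* a gate with upper certificates of size at most `q`: the same with larger in place of smaller. -/
structure Circuit (Y : Type) (s p q : ℕ) where
  /-- the value of a gate on an input set -/
  val : Fin s → Finset Y → ℝ
  gate : ∀ i,
    (∃ e, ∀ F, (e ∈ F → val i F = 1) ∧ (e ∉ F → val i F = 0)) ∨
    (∀ F, ∃ S : Finset (Fin s), S.card ≤ p ∧ (∀ j ∈ S, j < i) ∧
      ∀ F', (∀ j ∈ S, val j F ≤ val j F') → val i F ≤ val i F') ∨
    (∀ F, ∃ S : Finset (Fin s), S.card ≤ q ∧ (∀ j ∈ S, j < i) ∧
      ∀ F', (∀ j ∈ S, val j F' ≤ val j F) → val i F' ≤ val i F)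

end Pool.Agent.H95.MT
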