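import Pool.Agent.H13.Encode
import Pool.Agent.H95.MT.Hsh

/-!
ROW Enc (250 lines).  The hidden function is a projection of satisfiability.  Model: `Pool/Agent/H13/Encode.lean` (`clA clB clC`, `encode_sat`,
`clE_inj`) and `encode_atom` in `Pool/Agent/H13/MonoFinal.lean`.

Let `B = (Fin 3 × Fin V) × Fin k` (coordinate `i` of `α (κ, v)`). Variables:
* `A b a` (`b : B`, `a : Fin D`): the coordinate is `a`; `C b j` (`j : Fin (D + 1)`): chain;
* `S m i a`, `T m i a` (`m : Fin M`, `i : Fin k`, `a : Fin D`): the partial sum of two terms / the sum of three terms at coordinate `i` is `a`.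
Type `(B × (Fin D ⊕ Fin (D + 1))) ⊕ (Bool × (Fin M × (Fin k × Fin D)))`, cardinality `3 V k (2 D + 1) + 2 M k D ≤ n`, so there is an embedding `emb` into `Fin n`
(`Function.Embedding.nonempty_of_card_le`).
Fixed clauses: `{C b 0}`; `{¬ C b (last)}`; `{¬ C b v.castSucc, A b v, C b v.succ}`; (with `bκ = ((κ, H m κ), i)`)
`{¬ A b0 a, ¬ A b1 a', S m i (a + a')}`; `{¬ S m i c, ¬ A b2 a, T m i (c + a)}`.  Element clause of `x = (m, γ)`: `clX x = {¬ T m i (γ i) : i}` (`≤ k` literals).
`g y = univ.filter (fun c : Clause n k => c.1 is fixed ∨ ∃ x, x ∉ y ∧ c.1 = clX x)`.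
* antitone: clear. * second property: `clX` is injective (`γ i` can be read off because `emb` is injective; `m` too, `k ≥ 1`). Given `c, y`: if `c ∈ g y` or `c.1` is fixed take `W = ∅`; else if `c.1 = clX x` then
  `x ∈ y` (otherwise `c ∈ g y`), `W = {x}`: `c ∈ g {x}` would give `x' ∉ {x}` with `clX x' = clX x`. Else `W = ∅`: `c ∉ g ∅`.
* `Satisfiable (g y) → ∃ α`: from the chain clauses every `b` has `a b` with `A b (a b)` true (as `hex` in `encode_sat`, `Fin.induction`); `α (κ, v) i = a ((κ, v), i)`.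
  Then `S m i (α₀ i + α₁ i)` and `T m i (α₀ i + α₁ i + α₂ i)` are true, where `ακ = α (κ, H m κ)`. If `x = (m, γ) ∈ Yh H α` (`γ = Σ_κ α (κ, H m κ)`, `Fin.sum_univ_three`)
  were not in `y`, the clause `clX x ∈ g y` would be violated.
* conversely from `α`: the assignment with `A b a ⇔ a = α b`, `C b j ⇔ j ≤ α b`, `S m i a ⇔ a = α₀ i + α₁ i`, `T m i a ⇔ a = α₀ i + α₁ i + α₂ i` (`Function.extend emb`). For
  `x = (m, γ) ∉ y`: `γ ≠ Σ_κ α (κ, H m κ)`, so they differ at some `i`, and `¬ T m i (γ i)` is satisfied.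
`Fin D` is a group because of `[NeZero D]` (`Fin.addCommGroup`).
-/

namespace Pool.Agent.H95.MT

open Finset Classical
open H13 (Clause Satisfiable)

section
variable {n k V D M : ℕ} [NeZero D]
  (emb : ((((Fin 3 × Fin V) × Fin k) × (Fin D ⊕ Fin (D + 1))) ⊕
    (Bool × (Fin M × (Fin k × Fin D)))) ↪ Fin n) (H : Fin M → Fin 3 → Fin V)

/-- first chain clause -/
def Enc_A (b : (Fin 3 × Fin V) × Fin k) : Finset (Fin n × Bool) :=
  {(emb (Sum.inl (b, Sum.inr 0)), true)}

/-- last chain clause -/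
def Enc_B (b : (Fin 3 × Fin V) × Fin k) : Finset (Fin n × Bool) :=
  {(emb (Sum.inl (b, Sum.inr (Fin.last D))), false)}

/-- chain clause for the value `v` -/
def Enc_C (b : (Fin 3 × Fin V) × Fin k) (v : Fin D) : Finset (Fin n × Bool) :=
  {(emb (Sum.inl (b, Sum.inr v.castSucc)), false), (emb (Sum.inl (b, Sum.inl v)), true),
    (emb (Sum.inl (b, Sum.inr v.succ)), true)}

/-- the sum of the first two terms -/
def Enc_S (m : Fin M) (i : Fin k) (a a' : Fin D) : Finset (Fin n × Bool) :=
  {(emb (Sum.inl (((0, H m 0), i), Sum.inl a)), false),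
    (emb (Sum.inl (((1, H m 1), i), Sum.inl a')), false),
    (emb (Sum.inr (false, (m, (i, a + a')))), true)}

/-- the sum of the three terms -/
def Enc_T (m : Fin M) (i : Fin k) (c a : Fin D) : Finset (Fin n × Bool) :=
  {(emb (Sum.inr (false, (m, (i, c)))), false),
    (emb (Sum.inl (((2, H m 2), i), Sum.inl a)), false),
    (emb (Sum.inr (true, (m, (i, c + a)))), true)}

/-- clause of an element -/
def Enc_X (x : Fin M × (Fin k → Fin D)) : Finset (Fin n × Bool) :=
  univ.image (fun i : Fin k => (emb (Sum.inr (true, (x.1, (i, x.2 i)))), false))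

/-- the clauses that are always present -/
def Enc_F (c : Finset (Fin n × Bool)) : Prop :=
  (∃ b, c = Enc_A emb b) ∨ (∃ b, c = Enc_B emb b) ∨ (∃ b v, c = Enc_C emb b v) ∨
    (∃ m i a a', c = Enc_S emb H m i a a') ∨ ∃ m i a a', c = Enc_T emb H m i a a'

omit [NeZero D] in
lemma Enc_X_inj (hk : 0 < k) (x x' : Fin M × (Fin k → Fin D)) (h : Enc_X emb x = Enc_X emb x') :
    x = x' := by
  have key : ∀ i : Fin k, x.1 = x'.1 ∧ x.2 i = x'.2 i := by
    intro i
    have h1 : (emb (Sum.inr (true, (x.1, (i, x.2 i)))), false) ∈ Enc_X emb x := by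
      unfold Enc_X
      exact Finset.mem_image_of_mem _ (Finset.mem_univ i)
    rw [h] at h1
    unfold Enc_X at h1
    rw [Finset.mem_image] at h1
    obtain ⟨i', _, h2⟩ := h1
    have h3 := emb.injective (Prod.mk.inj h2).1
    simp only [Sum.inr.injEq, Prod.mk.injEq, true_and] at h3
    obtain ⟨h4, h5, h6⟩ := h3
    subst h5
    exact ⟨h4.symm, h6.symm⟩
  exact Prod.ext (key ⟨0, hk⟩).1 (funext fun i => (key i).2)

omit [NeZero D] in
lemma Enc_X_card (x : Fin M × (Fin k → Fin D)) : (Enc_X emb x).card ≤ k := by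
  unfold Enc_X
  refine Finset.card_image_le.trans ?_
  simp

lemma Enc_width (hk : 3 ≤ k) {c : Finset (Fin n × Bool)} (y : Finset (Fin M × (Fin k → Fin D)))
    (hc : Enc_F emb H c ∨ ∃ x, x ∉ y ∧ c = Enc_X emb x) : c.card ≤ k := by
  rcases hc with (⟨b, rfl⟩ | ⟨b, rfl⟩ | ⟨b, v, rfl⟩ | ⟨m, i, a, a', rfl⟩ | ⟨m, i, a, a', rfl⟩) |
    ⟨x, _, rfl⟩
  · unfold Enc_A
    rw [Finset.card_singleton]
    omega
  · unfold Enc_B
    rw [Finset.card_singleton]
    omega
  · unfold Enc_C
    exact Finset.card_le_three.trans hk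
  · unfold Enc_S
    exact Finset.card_le_three.trans hk
  · unfold Enc_T
    exact Finset.card_le_three.trans hk
  · exact Enc_X_card emb x

lemma Enc_sum (α : Fin 3 × Fin V → (Fin k → Fin D)) (m : Fin M) (i : Fin k) :
    (∑ κ, α (κ, H m κ)) i = α (0, H m 0) i + α (1, H m 1) i + α (2, H m 2) i := by
  rw [Finset.sum_apply, Fin.sum_univ_three]

lemma Enc_sat_mp (y : Finset (Fin M × (Fin k → Fin D))) (τ : Fin n → Bool)
    (hτ : ∀ c, (Enc_F emb H c ∨ ∃ x, x ∉ y ∧ c = Enc_X emb x) → ∃ l ∈ c, τ l.1 = l.2) :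
    ∃ α : Fin 3 × Fin V → (Fin k → Fin D), Yh H α ⊆ y := by
  have hA : ∀ b, τ (emb (Sum.inl (b, Sum.inr 0))) = true := by
    intro b
    obtain ⟨l, hl, h⟩ := hτ (Enc_A emb b) (Or.inl (Or.inl ⟨b, rfl⟩))
    unfold Enc_A at hl
    rw [Finset.mem_singleton] at hl
    rw [hl] at h
    exact h
  have hB : ∀ b, τ (emb (Sum.inl (b, Sum.inr (Fin.last D)))) = false := by
    intro b
    obtain ⟨l, hl, h⟩ := hτ (Enc_B emb b) (Or.inl (Or.inr (Or.inl ⟨b, rfl⟩)))
    unfold Enc_B at hl
    rw [Finset.mem_singleton] at hl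
    rw [hl] at h
    exact h
  have hC : ∀ b v, τ (emb (Sum.inl (b, Sum.inr v.castSucc))) = false ∨
      τ (emb (Sum.inl (b, Sum.inl v))) = true ∨
      τ (emb (Sum.inl (b, Sum.inr v.succ))) = true := by
    intro b v
    obtain ⟨l, hl, h⟩ := hτ (Enc_C emb b v) (Or.inl (Or.inr (Or.inr (Or.inl ⟨b, v, rfl⟩))))
    unfold Enc_C at hl
    simp only [Finset.mem_insert, Finset.mem_singleton] at hl
    rcases hl with hl | hl | hl
    · rw [hl] at h; exact Or.inl h
    · rw [hl] at h; exact Or.inr (Or.inl h)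
    · rw [hl] at h; exact Or.inr (Or.inr h)
  have hex : ∀ b, ∃ v, τ (emb (Sum.inl (b, Sum.inl v))) = true := by
    intro b
    by_contra hno
    push Not at hno
    have hall : ∀ j : Fin (D + 1), τ (emb (Sum.inl (b, Sum.inr j))) = true := by
      intro j
      induction j using Fin.induction with
      | zero => exact hA b
      | succ v ih =>
        rcases hC b v with h | h | h
        · rw [ih] at h; exact absurd h (by simp)
        · exact absurd h (hno v)
        · exact h
    have h1 := hall (Fin.last D)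
    rw [hB b] at h1
    exact absurd h1 (by simp)
  choose a ha using hex
  have hS : ∀ m i, τ (emb (Sum.inr (false, (m, (i, a ((0, H m 0), i) + a ((1, H m 1), i)))))) =
      true := by
    intro m i
    obtain ⟨l, hl, h⟩ := hτ (Enc_S emb H m i (a ((0, H m 0), i)) (a ((1, H m 1), i)))
      (Or.inl (Or.inr (Or.inr (Or.inr (Or.inl ⟨m, i, _, _, rfl⟩)))))
    unfold Enc_S at hl
    simp only [Finset.mem_insert, Finset.mem_singleton] at hl
    rcases hl with hl | hl | hl
    · rw [hl] at h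
      dsimp only at h
      rw [ha] at h
      exact absurd h (by simp)
    · rw [hl] at h
      dsimp only at h
      rw [ha] at h
      exact absurd h (by simp)
    · rw [hl] at h
      exact h
  have hT : ∀ m i, τ (emb (Sum.inr (true, (m, (i, a ((0, H m 0), i) + a ((1, H m 1), i) +
      a ((2, H m 2), i)))))) = true := by
    intro m i
    obtain ⟨l, hl, h⟩ := hτ (Enc_T emb H m i (a ((0, H m 0), i) + a ((1, H m 1), i))
      (a ((2, H m 2), i))) (Or.inl (Or.inr (Or.inr (Or.inr (Or.inr ⟨m, i, _, _, rfl⟩)))))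
    unfold Enc_T at hl
    simp only [Finset.mem_insert, Finset.mem_singleton] at hl
    rcases hl with hl | hl | hl
    · rw [hl] at h
      dsimp only at h
      rw [hS] at h
      exact absurd h (by simp)
    · rw [hl] at h
      dsimp only at h
      rw [ha] at h
      exact absurd h (by simp)
    · rw [hl] at h
      exact h
  refine ⟨fun p i => a (p, i), ?_⟩
  intro x hx
  rw [mem_Yh] at hx
  by_contra hxy
  obtain ⟨l, hl, h⟩ := hτ (Enc_X emb x) (Or.inr ⟨x, hxy, rfl⟩)
  unfold Enc_X at hl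
  rw [Finset.mem_image] at hl
  obtain ⟨i, _, hi⟩ := hl
  rw [← hi] at h
  dsimp only at h
  have h1 : x.2 i = a ((0, H x.1 0), i) + a ((1, H x.1 1), i) + a ((2, H x.1 2), i) := by
    rw [hx]
    exact Enc_sum H (fun p i => a (p, i)) x.1 i
  rw [h1, hT] at h
  exact absurd h (by simp)

/-- the assignment of a solution -/
def Enc_g (α : Fin 3 × Fin V → (Fin k → Fin D)) :
    ((((Fin 3 × Fin V) × Fin k) × (Fin D ⊕ Fin (D + 1))) ⊕ (Bool × (Fin M × (Fin k × Fin D)))) →
      Bool :=
  Sum.elim (fun w => Sum.elim (fun v => decide (v = α w.1.1 w.1.2))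
      (fun j => decide (j.val ≤ (α w.1.1 w.1.2).val)) w.2)
    (fun w => if w.1 = true then decide (w.2.2.2 = α (0, H w.2.1 0) w.2.2.1 +
        α (1, H w.2.1 1) w.2.2.1 + α (2, H w.2.1 2) w.2.2.1)
      else decide (w.2.2.2 = α (0, H w.2.1 0) w.2.2.1 + α (1, H w.2.1 1) w.2.2.1))

lemma Enc_sat_mpr (y : Finset (Fin M × (Fin k → Fin D)))
    (α : Fin 3 × Fin V → (Fin k → Fin D)) (hα : Yh H α ⊆ y) :
    ∃ τ : Fin n → Bool, ∀ c, (Enc_F emb H c ∨ ∃ x, x ∉ y ∧ c = Enc_X emb x) →
      ∃ l ∈ c, τ l.1 = l.2 := by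
  refine ⟨Function.extend emb (Enc_g H α) (fun _ => false), ?_⟩
  have hext : ∀ w, Function.extend emb (Enc_g H α) (fun _ => false) (emb w) = Enc_g H α w :=
    fun w => emb.injective.extend_apply _ _ w
  intro c hc
  rcases hc with (⟨b, rfl⟩ | ⟨b, rfl⟩ | ⟨b, v, rfl⟩ | ⟨m, i, a, a', rfl⟩ | ⟨m, i, a, a', rfl⟩) |
    ⟨x, hx, rfl⟩
  · refine ⟨_, Finset.mem_singleton_self _, ?_⟩
    dsimp only
    rw [hext]
    simp [Enc_g]
  · refine ⟨_, Finset.mem_singleton_self _, ?_⟩
    dsimp only
    rw [hext]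
    simp [Enc_g]
  · unfold Enc_C
    rcases lt_trichotomy v (α b.1 b.2) with h | h | h
    · refine ⟨(emb (Sum.inl (b, Sum.inr v.succ)), true), by simp, ?_⟩
      dsimp only
      rw [hext]
      simp only [Enc_g, Sum.elim_inl, Sum.elim_inr, Fin.val_succ, decide_eq_true_eq]
      exact h
    · refine ⟨(emb (Sum.inl (b, Sum.inl v)), true), by simp, ?_⟩
      dsimp only
      rw [hext]
      simp only [Enc_g, Sum.elim_inl, decide_eq_true_eq]
      exact h
    · refine ⟨(emb (Sum.inl (b, Sum.inr v.castSucc)), false), by simp, ?_⟩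
      dsimp only
      rw [hext]
      simp only [Enc_g, Sum.elim_inl, Sum.elim_inr, Fin.val_castSucc, decide_eq_false_iff_not,
        not_le]
      exact h
  · unfold Enc_S
    by_cases h0 : a = α (0, H m 0) i
    · by_cases h1 : a' = α (1, H m 1) i
      · refine ⟨(emb (Sum.inr (false, (m, (i, a + a')))), true), by simp, ?_⟩
        dsimp only
        rw [hext]
        simp only [Enc_g, Sum.elim_inr, Bool.false_eq_true, if_false, decide_eq_true_eq]
        rw [h0, h1]
      · refine ⟨(emb (Sum.inl (((1, H m 1), i), Sum.inl a')), false), by simp, ?_⟩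
        dsimp only
        rw [hext]
        simp only [Enc_g, Sum.elim_inl, decide_eq_false_iff_not]
        exact h1
    · refine ⟨(emb (Sum.inl (((0, H m 0), i), Sum.inl a)), false), by simp, ?_⟩
      dsimp only
      rw [hext]
      simp only [Enc_g, Sum.elim_inl, decide_eq_false_iff_not]
      exact h0
  · unfold Enc_T
    by_cases h0 : a = α (0, H m 0) i + α (1, H m 1) i
    · by_cases h1 : a' = α (2, H m 2) i
      · refine ⟨(emb (Sum.inr (true, (m, (i, a + a')))), true), by simp, ?_⟩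
        dsimp only
        rw [hext]
        simp only [Enc_g, Sum.elim_inr, if_true, decide_eq_true_eq]
        rw [h0, h1]
      · refine ⟨(emb (Sum.inl (((2, H m 2), i), Sum.inl a')), false), by simp, ?_⟩
        dsimp only
        rw [hext]
        simp only [Enc_g, Sum.elim_inl, decide_eq_false_iff_not]
        exact h1
    · refine ⟨(emb (Sum.inr (false, (m, (i, a)))), false), by simp, ?_⟩
      dsimp only
      rw [hext]
      simp only [Enc_g, Sum.elim_inr, Bool.false_eq_true, if_false, decide_eq_false_iff_not]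
      exact h0
  · have hne : ∃ i, x.2 i ≠ α (0, H x.1 0) i + α (1, H x.1 1) i + α (2, H x.1 2) i := by
      by_contra hno
      push Not at hno
      apply hx
      apply hα
      rw [mem_Yh]
      funext i
      rw [hno i]
      exact (Enc_sum H α x.1 i).symm
    obtain ⟨i, hi⟩ := hne
    refine ⟨(emb (Sum.inr (true, (x.1, (i, x.2 i)))), false), ?_, ?_⟩
    · unfold Enc_X
      exact Finset.mem_image_of_mem _ (Finset.mem_univ i)
    · dsimp only
      rw [hext]
      simp only [Enc_g, Sum.elim_inr, if_true, decide_eq_false_iff_not]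
      exact hi

end

theorem encode {n k V D M : ℕ} [NeZero D] (hk : 3 ≤ k)
    (hn : 3 * V * (k * (2 * D + 1)) + 2 * (M * (k * D)) ≤ n) (H : Fin M → Fin 3 → Fin V) :
    ∃ g : Finset (Fin M × (Fin k → Fin D)) → Finset (Clause n k),
      (∀ y y', y ⊆ y' → g y' ⊆ g y) ∧
      (∀ c y, ∃ W, W ⊆ y ∧ W.card ≤ 1 ∧ (c ∈ g W → c ∈ g y)) ∧
      ∀ y, Satisfiable (g y) ↔ ∃ α : Fin 3 × Fin V → (Fin k → Fin D), Yh H α ⊆ y := by
  have hcard : Fintype.card ((((Fin 3 × Fin V) × Fin k) × (Fin D ⊕ Fin (D + 1))) ⊕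
      (Bool × (Fin M × (Fin k × Fin D)))) ≤ Fintype.card (Fin n) := by
    simp only [Fintype.card_prod, Fintype.card_fin, Fintype.card_sum, Fintype.card_bool]
    refine le_trans (le_of_eq ?_) hn
    ring
  obtain ⟨emb⟩ := Function.Embedding.nonempty_of_card_le hcard
  refine ⟨fun y => univ.filter (fun c : Clause n k =>
    Enc_F emb H c.1 ∨ ∃ x, x ∉ y ∧ c.1 = Enc_X emb x), ?_, ?_, ?_⟩
  · intro y y' hy c hc
    rw [Finset.mem_filter] at hc ⊢
    refine ⟨hc.1, ?_⟩
    rcases hc.2 with h | ⟨x, hx, h⟩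
    · exact Or.inl h
    · exact Or.inr ⟨x, fun hx' => hx (hy hx'), h⟩
  · intro c y
    by_cases hF : Enc_F emb H c.1
    · refine ⟨∅, Finset.empty_subset _, by simp, fun _ => ?_⟩
      rw [Finset.mem_filter]
      exact ⟨Finset.mem_univ _, Or.inl hF⟩
    · by_cases hX : ∃ x, c.1 = Enc_X emb x
      · obtain ⟨x, hx⟩ := hX
        by_cases hxy : x ∈ y
        · refine ⟨{x}, Finset.singleton_subset_iff.2 hxy, by simp, fun h => ?_⟩
          rw [Finset.mem_filter] at h
          rcases h.2 with h | ⟨x', hx', h⟩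
          · exact absurd h hF
          · have : x = x' := Enc_X_inj emb (by omega) x x' (by rw [← hx, h])
            exact absurd (Finset.mem_singleton.2 this.symm) hx'
        · refine ⟨∅, Finset.empty_subset _, by simp, fun _ => ?_⟩
          rw [Finset.mem_filter]
          exact ⟨Finset.mem_univ _, Or.inr ⟨x, hxy, hx⟩⟩
      · refine ⟨∅, Finset.empty_subset _, by simp, fun h => ?_⟩
        rw [Finset.mem_filter] at h
        rcases h.2 with h | ⟨x', _, h⟩
        · exact absurd h hF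
        · exact absurd ⟨x', h⟩ hX
  · intro y
    constructor
    · rintro ⟨τ, hτ⟩
      apply Enc_sat_mp emb H y τ
      intro c hc
      obtain ⟨l, hl, h⟩ := hτ ⟨c, Enc_width emb H hk y hc⟩ (by
        rw [Finset.mem_filter]
        exact ⟨Finset.mem_univ _, hc⟩)
      exact ⟨l, hl, h⟩
    · rintro ⟨α, hα⟩
      obtain ⟨τ, hτ⟩ := Enc_sat_mpr emb H y α hα
      refine ⟨τ, ?_⟩
      intro c hc
      rw [Finset.mem_filter] at hc
      exact hτ c.1 hc.2

end Pool.Agent.H95.MT
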