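import Mathlib

/-!
PROVED. Parameters.  Integer parameters (natural number arithmetic only).

`λ = Nat.log 2 n + 1` (`n < 2 ^ λ`: `Nat.lt_pow_succ_log_self`). `K = (q + 1) L`, `ρ = λ + 1`, `V = cV λ³ K` with `cV = 12^3 3^5 3^9 (4k)^3`, `M = 3 k V λ + 1`,
`g = K λ (k + 2) + 2 L`, `D = n / (17 k² V λ)`, `C = 2^(k+1) * 256 (k+4) (34 k² cV)^k + 4 k + 3` (any larger `C` also works: choose the most convenient).
Hypothesis (H): `C * (p (q L)^(k+1) λ^C) ≤ n^k`; `K ≤ 2 q L`, so with `C₁ = 256 (k+4) (34 k² cV)^k`: `C₁ p K^(k+1) λ^(4k+3) ≤ n^k`.  In particular `34 k² cV λ⁴ K ≤ n`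
(compare `k`-th powers: `(34 k² cV λ⁴ K)^k ≤ C₁ p K^(k+1) λ^(4k+3) ≤ n^k`), i.e. `n ≥ 2 · 17 k² V λ`, hence `D ≥ 1` and `n ≤ 34 k² V λ D`.
* `M ≤ 4 k V λ`; `12^3 3^5 3^9 M³ K ≤ 12^3 3^14 (4k)³ V³ λ³ K = V³ V`.   * `5 K ≤ 9 V` clear. * `K ≤ n < 2^λ < 2^ρ`.
* variables: `3 V k (2D+1) + 2 M k D ≤ 9 V k D + 8 k V λ k D ≤ 17 k² V λ D ≤ n`; in particular `M ≤ n < 2^λ`, `D ≤ n < 2^λ`.
* `M D^k + 1 ≤ 2^(λ(k+1)) + 1 ≤ 2^(λ(k+2))`, so `(M D^k + 1)^K 4^L ≤ 2^(λ (k+2) K + 2 L)`.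
* `2 (D^k)^(3V) ≤ 2 · 2^(3 k V λ) = 2^M`.
* `8 p (4ρ (2 g ρ)) = 64 p g ρ² ≤ 64 p (K λ (k+4)) (2λ)² = 256 (k+4) p K λ³`, and (multiply by `(34 k² V λ)^k = (34 k² cV λ⁴ K)^k`)
  `256 (k+4) p K λ³ (34 k² cV λ⁴ K)^k = C₁ p K^(k+1) λ^(4k+3) ≤ n^k ≤ (34 k² V λ D)^k`, so `256 (k+4) p K λ³ ≤ D^k`.
-/

namespace Pool.Agent.H95.MT

/-- The hypothesis in the form used. -/
theorem Par_main (k n p q L l c K : ℕ) (_hk : 3 ≤ k) (_hc1 : 1 ≤ c) (_hp : 1 ≤ p) (hl1 : 1 ≤ l)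
    (hK2 : K ≤ 2 * (q * L))
    (H : (2 ^ (k + 1) * (256 * (k + 4) * (34 * k ^ 2 * c) ^ k) + (4 * k + 3)) *
      (p * (q * L) ^ (k + 1) *
        l ^ (2 ^ (k + 1) * (256 * (k + 4) * (34 * k ^ 2 * c) ^ k) + (4 * k + 3))) ≤ n ^ k) :
    256 * (k + 4) * (34 * k ^ 2 * c) ^ k * (p * K ^ (k + 1) * l ^ (4 * k + 3)) ≤ n ^ k := by
  obtain ⟨A, hA⟩ : ∃ A : ℕ, A = 256 * (k + 4) * (34 * k ^ 2 * c) ^ k := ⟨_, rfl⟩
  rw [← hA] at H ⊢
  have h1 : K ^ (k + 1) ≤ 2 ^ (k + 1) * (q * L) ^ (k + 1) := by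
    rw [← mul_pow]
    exact Nat.pow_le_pow_left hK2 _
  have h2 : l ^ (4 * k + 3) ≤ l ^ (2 ^ (k + 1) * A + (4 * k + 3)) :=
    Nat.pow_le_pow_right hl1 (by omega)
  calc A * (p * K ^ (k + 1) * l ^ (4 * k + 3))
      ≤ A * (p * (2 ^ (k + 1) * (q * L) ^ (k + 1)) * l ^ (2 ^ (k + 1) * A + (4 * k + 3))) := by
        gcongr
    _ = (2 ^ (k + 1) * A) *
          (p * (q * L) ^ (k + 1) * l ^ (2 ^ (k + 1) * A + (4 * k + 3))) := by ring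
    _ ≤ (2 ^ (k + 1) * A + (4 * k + 3)) *
          (p * (q * L) ^ (k + 1) * l ^ (2 ^ (k + 1) * A + (4 * k + 3))) := by
        gcongr
        omega
    _ ≤ n ^ k := H

/-- The size of `n`. -/
theorem Par_size (k n p l c K : ℕ) (hk : 3 ≤ k) (hp : 1 ≤ p) (hl1 : 1 ≤ l) (hK1 : 1 ≤ K)
    (H : 256 * (k + 4) * (34 * k ^ 2 * c) ^ k * (p * K ^ (k + 1) * l ^ (4 * k + 3)) ≤ n ^ k) :
    34 * k ^ 2 * c * l ^ 4 * K ≤ n := by
  have h1 : (34 * k ^ 2 * c * l ^ 4 * K) ^ k ≤ n ^ k := by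
    refine le_trans ?_ H
    have e1 : (34 * k ^ 2 * c * l ^ 4 * K) ^ k
        = 1 * (34 * k ^ 2 * c) ^ k * (1 * K ^ k * l ^ (4 * k)) := by
      rw [mul_pow, mul_pow, ← pow_mul]
      ring
    rw [e1]
    have a1 : 1 ≤ 256 * (k + 4) := by omega
    have a2 : K ^ k ≤ K ^ (k + 1) := Nat.pow_le_pow_right hK1 (by omega)
    have a3 : l ^ (4 * k) ≤ l ^ (4 * k + 3) := Nat.pow_le_pow_right hl1 (by omega)
    gcongr
  exact (Nat.pow_le_pow_iff_left (by omega)).1 h1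

/-- All the inequalities. -/
theorem Par_fin (N k n p L l c K V : ℕ) (hk : 3 ≤ k)
    (hc : c = N * (4 * k) ^ 3) (hc1 : 1 ≤ c)
    (hp : 1 ≤ p) (hL : 1 ≤ L) (hl1 : 1 ≤ l) (hnl : n < 2 ^ l)
    (hLK : L ≤ K) (hK1 : 1 ≤ K) (hV : V = c * l ^ 3 * K)
    (H : 256 * (k + 4) * (34 * k ^ 2 * c) ^ k * (p * K ^ (k + 1) * l ^ (4 * k + 3)) ≤ n ^ k) :
    ∃ V D M g ρ : ℕ, 1 ≤ V ∧ 1 ≤ D ∧ 1 ≤ ρ ∧ 1 ≤ g ∧
        5 * K ≤ 3 * (3 * V) ∧
        N * M ^ 3 * K ≤ V ^ (3 + 1) ∧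
        K < 2 ^ ρ ∧
        8 * p * (4 * ρ * (2 * (g * ρ))) ≤ D ^ k ∧
        (M * D ^ k + 1) ^ K * 4 ^ L ≤ 2 ^ g ∧
        2 * (D ^ k) ^ (3 * V) ≤ 2 ^ M ∧
        3 * V * (k * (2 * D + 1)) + 2 * (M * (k * D)) ≤ n := by
  have hsz := Par_size k n p l c K hk hp hl1 hK1 H
  have hk1 : 1 ≤ k := by omega
  have hKV : K ≤ V := by
    rw [hV]
    have : 1 ≤ c * l ^ 3 := Nat.one_le_iff_ne_zero.mpr (by positivity)
    nlinarith
  have hV1 : 1 ≤ V := le_trans hK1 hKV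
  obtain ⟨W, hW⟩ : ∃ W : ℕ, W = 17 * k ^ 2 * V * l := ⟨_, rfl⟩
  have h2W : 2 * W ≤ n := by
    have : 2 * W = 34 * k ^ 2 * c * l ^ 4 * K := by
      rw [hW, hV]
      ring
    rw [this]
    exact hsz
  have hWpos : 0 < W := by
    rw [hW]
    positivity
  have hVW : V ≤ W := by
    rw [hW]
    have : 1 ≤ 17 * k ^ 2 * l := Nat.one_le_iff_ne_zero.mpr (by positivity)
    nlinarith
  have hKn : K ≤ n := by omega
  obtain ⟨D, hD⟩ : ∃ D : ℕ, D = n / W := ⟨_, rfl⟩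
  have hDW : D * W ≤ n := by
    rw [hD]
    exact Nat.div_mul_le_self n W
  have hD1 : 1 ≤ D := by
    rw [hD]
    exact (Nat.one_le_div_iff hWpos).2 (by omega)
  have hnD : n ≤ 2 * D * W := by
    have h1 : n < (D + 1) * W := by
      rw [hD]
      exact Nat.lt_mul_of_div_lt (Nat.lt_succ_self _) hWpos
    nlinarith
  have hDn : D ≤ n := by nlinarith
  have hDl : D ≤ 2 ^ l := by omega
  obtain ⟨M, hM⟩ : ∃ M : ℕ, M = 3 * k * V * l + 1 := ⟨_, rfl⟩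
  have hM4 : M ≤ 4 * k * V * l := by
    rw [hM]
    have : 1 ≤ k * V * l := Nat.one_le_iff_ne_zero.mpr (by positivity)
    nlinarith
  have hMn : M ≤ n := by
    have : 4 * k * V * l ≤ W := by
      rw [hW]
      have : k * 1 ≤ k * k := Nat.mul_le_mul_left k hk1
      calc 4 * k * V * l = 4 * (k * 1) * (V * l) := by ring
        _ ≤ 17 * (k * k) * (V * l) := by gcongr; omega
        _ = 17 * k ^ 2 * V * l := by ring
    omega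
  have hMl : M ≤ 2 ^ l := by omega
  refine ⟨V, D, M, K * l * (k + 2) + 2 * L, l + 1, hV1, hD1, by omega, by omega, by omega,
    ?_, ?_, ?_, ?_, ?_, ?_⟩
  · calc N * M ^ 3 * K
        ≤ N * (4 * k * V * l) ^ 3 * K := by gcongr
      _ = (N * (4 * k) ^ 3) * l ^ 3 * K * V ^ 3 := by ring
      _ = V * V ^ 3 := by rw [← hc, ← hV]
      _ = V ^ (3 + 1) := by ring
  · calc K ≤ n := hKn
      _ < 2 ^ l := hnl
      _ ≤ 2 ^ (l + 1) := Nat.pow_le_pow_right (by norm_num) (by omega)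
  · have hg : K * l * (k + 2) + 2 * L ≤ K * l * (k + 4) := by
      have : L ≤ K * l := le_trans hLK (Nat.le_mul_of_pos_right K hl1)
      nlinarith
    have hr : l + 1 ≤ 2 * l := by omega
    have h1 : 8 * p * (4 * (l + 1) * (2 * ((K * l * (k + 2) + 2 * L) * (l + 1))))
        ≤ 256 * (k + 4) * p * K * l ^ 3 := by
      calc 8 * p * (4 * (l + 1) * (2 * ((K * l * (k + 2) + 2 * L) * (l + 1))))
          ≤ 8 * p * (4 * (2 * l) * (2 * ((K * l * (k + 4)) * (2 * l)))) := by gcongr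
        _ = 256 * (k + 4) * p * K * l ^ 3 := by ring
    refine le_trans h1 ?_
    have hW2 : (2 * W) ^ k = (34 * k ^ 2 * c) ^ k * K ^ k * l ^ (4 * k) := by
      have : 2 * W = (34 * k ^ 2 * c) * K * l ^ 4 := by
        rw [hW, hV]
        ring
      rw [this, mul_pow, mul_pow, ← pow_mul]
    have h3 : (256 * (k + 4) * p * K * l ^ 3) * (2 * W) ^ k ≤ D ^ k * (2 * W) ^ k := by
      calc (256 * (k + 4) * p * K * l ^ 3) * (2 * W) ^ k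
          = 256 * (k + 4) * (34 * k ^ 2 * c) ^ k * (p * K ^ (k + 1) * l ^ (4 * k + 3)) := by
            rw [hW2]
            ring
        _ ≤ n ^ k := H
        _ ≤ (2 * D * W) ^ k := Nat.pow_le_pow_left hnD _
        _ = D ^ k * (2 * W) ^ k := by
            rw [← mul_pow]
            congr 1
            ring
    exact Nat.le_of_mul_le_mul_right h3 (by positivity)
  · have h1 : M * D ^ k + 1 ≤ 2 ^ (l * (k + 2)) := by
      have h2 : M * D ^ k ≤ 2 ^ (l * (k + 1)) := by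
        calc M * D ^ k ≤ 2 ^ l * (2 ^ l) ^ k := by gcongr
          _ = 2 ^ (l * (k + 1)) := by
              rw [← pow_mul, ← pow_add]
              congr 1
              ring
      have h3 : 1 ≤ 2 ^ (l * (k + 1)) := Nat.one_le_two_pow
      have h4 : 2 * 2 ^ (l * (k + 1)) ≤ 2 ^ (l * (k + 2)) := by
        calc 2 * 2 ^ (l * (k + 1)) = 2 ^ (l * (k + 1) + 1) := by ring
          _ ≤ 2 ^ (l * (k + 2)) := Nat.pow_le_pow_right (by norm_num) (by nlinarith)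
      omega
    calc (M * D ^ k + 1) ^ K * 4 ^ L ≤ (2 ^ (l * (k + 2))) ^ K * 4 ^ L := by gcongr
      _ = 2 ^ (K * l * (k + 2) + 2 * L) := by
          have e4 : (4 : ℕ) ^ L = 2 ^ (2 * L) := by
            rw [pow_mul]
            norm_num
          rw [e4, ← pow_mul, ← pow_add]
          congr 1
          ring
  · calc 2 * (D ^ k) ^ (3 * V) ≤ 2 * ((2 ^ l) ^ k) ^ (3 * V) := by gcongr
      _ = 2 ^ (l * k * (3 * V) + 1) := by
          rw [← pow_mul, ← pow_mul, pow_succ]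
          ring
      _ = 2 ^ M := by
          rw [hM]
          congr 1
          ring
  · have h1 : 3 * V * (k * (2 * D + 1)) ≤ 9 * (V * k * D) := by
      have : V * k * 1 ≤ V * k * D := Nat.mul_le_mul_left _ hD1
      nlinarith
    have h2 : 9 * (V * k * D) ≤ 9 * (k ^ 2 * V * l * D) := by
      have : k * 1 ≤ k * (k * l) := Nat.mul_le_mul_left _ (Nat.mul_pos hk1 hl1)
      calc 9 * (V * k * D) = 9 * (k * 1 * (V * D)) := by ring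
        _ ≤ 9 * (k * (k * l) * (V * D)) := by gcongr
        _ = 9 * (k ^ 2 * V * l * D) := by ring
    have h3 : 2 * (M * (k * D)) ≤ 8 * (k ^ 2 * V * l * D) := by
      calc 2 * (M * (k * D)) ≤ 2 * (4 * k * V * l * (k * D)) := by gcongr
        _ = 8 * (k ^ 2 * V * l * D) := by ring
    have h4 : 17 * (k ^ 2 * V * l * D) ≤ n := by
      calc 17 * (k ^ 2 * V * l * D) = D * W := by
            rw [hW]
            ring
        _ ≤ n := hDW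
    omega

theorem params (k : ℕ) (hk : 3 ≤ k) :
    ∃ C : ℕ, ∀ n p q L : ℕ, 1 ≤ p → 1 ≤ q → 1 ≤ L →
      C * (p * (q * L) ^ (k + 1) * (Nat.log 2 n + 1) ^ C) ≤ n ^ k →
      ∃ V D M g ρ : ℕ, 1 ≤ V ∧ 1 ≤ D ∧ 1 ≤ ρ ∧ 1 ≤ g ∧
        5 * ((q + 1) * L) ≤ 3 * (3 * V) ∧
        12 ^ 3 * 3 ^ 5 * 3 ^ (3 * 3) * M ^ 3 * ((q + 1) * L) ≤ V ^ (3 + 1) ∧
        (q + 1) * L < 2 ^ ρ ∧
        8 * p * (4 * ρ * (2 * (g * ρ))) ≤ D ^ k ∧
        (M * D ^ k + 1) ^ ((q + 1) * L) * 4 ^ L ≤ 2 ^ g ∧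
        2 * (D ^ k) ^ (3 * V) ≤ 2 ^ M ∧
        3 * V * (k * (2 * D + 1)) + 2 * (M * (k * D)) ≤ n := by
  obtain ⟨c, hc⟩ : ∃ c : ℕ, c = 12 ^ 3 * 3 ^ 5 * 3 ^ (3 * 3) * (4 * k) ^ 3 := ⟨_, rfl⟩
  have hc1 : 1 ≤ c := by
    rw [hc]
    exact Nat.one_le_iff_ne_zero.mpr (by positivity)
  refine ⟨2 ^ (k + 1) * (256 * (k + 4) * (34 * k ^ 2 * c) ^ k) + (4 * k + 3), ?_⟩
  intro n p q L hp hq hL H
  obtain ⟨l, hl⟩ : ∃ l : ℕ, l = Nat.log 2 n + 1 := ⟨_, rfl⟩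
  rw [← hl] at H
  have hl1 : 1 ≤ l := by omega
  have hnl : n < 2 ^ l := by
    rw [hl]
    exact Nat.lt_pow_succ_log_self (by norm_num) n
  obtain ⟨K, hK⟩ : ∃ K : ℕ, K = (q + 1) * L := ⟨_, rfl⟩
  have hK2 : K ≤ 2 * (q * L) := by
    rw [hK]
    nlinarith
  have hLK : L ≤ K := by
    rw [hK]
    nlinarith
  have hK1 : 1 ≤ K := le_trans hL hLK
  have main := Par_main k n p q L l c K hk hc1 hp hl1 hK2 H
  have fin := Par_fin (12 ^ 3 * 3 ^ 5 * 3 ^ (3 * 3)) k n p L l c K _ hk hc hc1 hp hL hl1 hnl hLK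
    hK1 rfl main
  rw [hK] at fin
  exact fin

end Pool.Agent.H95.MT
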