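import Pool.Agent.H13.MonoParams

/-!
ROW Xpo (100 lines).  The condition in terms of exponents.

Let `e = k - (c + (k+1)(a + E)) > 0`. Take `L = ⌈n^E⌉₊ + 1 ≤ 3 n^E` (`n^E ≥ 1`). Then in `ℝ`:
`p (q L)^(k+1) ≤ n^c (n^a 3 n^E)^(k+1) = 3^(k+1) n^(c + (k+1)(a+E)) = 3^(k+1) n^(k - e)`, and
`C (Nat.log 2 n + 1)^C 3^(k+1) ≤ C 3^(k+1) 2^C (log n + 3)^C ≤ n^e` for large `n` (`H13.natlog_le`, `H13.asymP`).
Multiply; `n^(k-e) n^e = n^k` (`Real.rpow_add`, `Real.rpow_natCast`). Cast back to `ℕ`.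
-/

namespace Pool.Agent.H95.MT

theorem exponents (k C : ℕ) (c a E : ℝ) (hE : 0 ≤ E) (h : c + (k + 1) * (a + E) < k) :
    ∃ n₀ : ℕ, ∀ n ≥ n₀, ∀ p q : ℕ, (p : ℝ) ≤ (n : ℝ) ^ c → (q : ℝ) ≤ (n : ℝ) ^ a →
      ∃ L : ℕ, 1 ≤ L ∧ (n : ℝ) ^ E + 1 ≤ L ∧
        C * (p * (q * L) ^ (k + 1) * (Nat.log 2 n + 1) ^ C) ≤ n ^ k := by
  have he0 : 0 < (k : ℝ) - (c + (k + 1) * (a + E)) := by linarith
  obtain ⟨e, he⟩ : ∃ e : ℝ, e = (k : ℝ) - (c + (k + 1) * (a + E)) := ⟨_, rfl⟩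
  rw [← he] at he0
  obtain ⟨n₁, hn₁⟩ := H13.asymP ((C : ℝ) * 3 ^ (k + 1) * 2 ^ C) e C he0
  refine ⟨max n₁ 1, fun n hn p q hp hq => ?_⟩
  have hn1 : n₁ ≤ n := le_trans (le_max_left _ _) hn
  have hn2 : 1 ≤ n := le_trans (le_max_right _ _) hn
  have hx1 : (1 : ℝ) ≤ n := by exact_mod_cast hn2
  have hx0 : (0 : ℝ) < n := by linarith
  have hE1 : (1 : ℝ) ≤ (n : ℝ) ^ E := Real.one_le_rpow hx1 hE
  have hceil : ((⌈(n : ℝ) ^ E⌉₊ : ℕ) : ℝ) ≤ (n : ℝ) ^ E + 1 :=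
    (Nat.ceil_lt_add_one (by linarith)).le
  refine ⟨⌈(n : ℝ) ^ E⌉₊ + 1, by omega, ?_, ?_⟩
  · push_cast
    linarith [Nat.le_ceil ((n : ℝ) ^ E)]
  obtain ⟨L, hL⟩ : ∃ L : ℕ, L = ⌈(n : ℝ) ^ E⌉₊ + 1 := ⟨_, rfl⟩
  rw [← hL]
  have hL3 : (L : ℝ) ≤ 3 * (n : ℝ) ^ E := by
    rw [hL]
    push_cast
    linarith
  have hlog0 : 0 ≤ Real.log n := Real.log_nonneg hx1
  have hA : ((q : ℝ) * L) ^ (k + 1) ≤ 3 ^ (k + 1) * (n : ℝ) ^ ((k + 1 : ℝ) * (a + E)) := by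
    have h1 : (q : ℝ) * L ≤ 3 * (n : ℝ) ^ (a + E) := by
      calc (q : ℝ) * L ≤ (n : ℝ) ^ a * (3 * (n : ℝ) ^ E) :=
            mul_le_mul hq hL3 (by positivity) (by positivity)
        _ = 3 * ((n : ℝ) ^ a * (n : ℝ) ^ E) := by ring
        _ = 3 * (n : ℝ) ^ (a + E) := by rw [Real.rpow_add hx0]
    calc ((q : ℝ) * L) ^ (k + 1) ≤ (3 * (n : ℝ) ^ (a + E)) ^ (k + 1) :=
          pow_le_pow_left₀ (by positivity) h1 _
      _ = 3 ^ (k + 1) * ((n : ℝ) ^ (a + E)) ^ (k + 1) := by rw [mul_pow]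
      _ = 3 ^ (k + 1) * (n : ℝ) ^ ((k + 1 : ℝ) * (a + E)) := by
          congr 1
          rw [← Real.rpow_natCast, ← Real.rpow_mul hx0.le]
          congr 1
          push_cast
          ring
  have hB : ((Nat.log 2 n + 1 : ℕ) : ℝ) ^ C ≤ 2 ^ C * (Real.log n + 3) ^ C := by
    rw [← mul_pow]
    exact pow_le_pow_left₀ (by positivity) (H13.natlog_le n hn2) _
  have hC : (C : ℝ) * 3 ^ (k + 1) * 2 ^ C * (Real.log n + 3) ^ C ≤ (n : ℝ) ^ e := hn₁ n hn1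
  have hfin : (C : ℝ) * (p * ((q : ℝ) * L) ^ (k + 1) * ((Nat.log 2 n + 1 : ℕ) : ℝ) ^ C)
      ≤ (n : ℝ) ^ k := by
    calc (C : ℝ) * (p * ((q : ℝ) * L) ^ (k + 1) * ((Nat.log 2 n + 1 : ℕ) : ℝ) ^ C)
        ≤ (C : ℝ) * ((n : ℝ) ^ c * (3 ^ (k + 1) * (n : ℝ) ^ ((k + 1 : ℝ) * (a + E))) *
            (2 ^ C * (Real.log n + 3) ^ C)) := by
          apply mul_le_mul_of_nonneg_left _ (by positivity)
          apply mul_le_mul _ hB (by positivity) (by positivity)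
          exact mul_le_mul hp hA (by positivity) (by positivity)
      _ = ((n : ℝ) ^ c * (n : ℝ) ^ ((k + 1 : ℝ) * (a + E))) *
            ((C : ℝ) * 3 ^ (k + 1) * 2 ^ C * (Real.log n + 3) ^ C) := by ring
      _ ≤ ((n : ℝ) ^ c * (n : ℝ) ^ ((k + 1 : ℝ) * (a + E))) * (n : ℝ) ^ e :=
          mul_le_mul_of_nonneg_left hC (by positivity)
      _ = (n : ℝ) ^ (k : ℝ) := by
          rw [← Real.rpow_add hx0, ← Real.rpow_add hx0]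
          congr 1
          rw [he]
          ring
      _ = (n : ℝ) ^ k := Real.rpow_natCast _ _
  exact_mod_cast hfin

end Pool.Agent.H95.MT
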