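import Pool.Agent.H95.MT.Defs
import Pool.Agent.H95.MT.Gts
import Pool.Agent.H95.MT.Enc
import Pool.Agent.H95.MT.Par
import Pool.Agent.H95.MT.Xpo

/-!
Lower bounds for circuits with monotone real gates with small certificates that decide
unsatisfiability of formulas of bounded width.
-/

namespace Pool.Agent.H95.MT

open Finset Classical
open H13 (cnt Clause Satisfiable Neg)

theorem dgate {X Y : Type} [Fintype X] [DecidableEq X] {s p q : ℕ} (c : Circuit Y s p q)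
    (g : Finset X → Finset Y) (hg : ∀ y y', y ⊆ y' → g y' ⊆ g y)
    (hl : ∀ e y, ∃ W, W ⊆ y ∧ W.card ≤ 1 ∧ (e ∈ g W → e ∈ g y)) (i : Fin s) :
    DGate (fun i y => -c.val i (g y)) p q i := by
  rcases c.gate i with ⟨e, he⟩ | h | h
  · left
    have h1 : ∀ y, e ∈ g y → -c.val i (g y) = -1 := fun y hy => by rw [(he (g y)).1 hy]
    have h0 : ∀ y, e ∉ g y → -c.val i (g y) = 0 := fun y hy => by rw [(he (g y)).2 hy, neg_zero]
    have hle : ∀ y, -c.val i (g y) ≤ 0 := by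
      intro y
      by_cases hy : e ∈ g y
      · rw [h1 y hy]
        norm_num
      · rw [h0 y hy]
    have hcmp : ∀ x y, (e ∈ g y → e ∈ g x) → -c.val i (g x) ≤ -c.val i (g y) := by
      intro x y hxy
      by_cases hy : e ∈ g y
      · rw [h1 y hy, h1 x (hxy hy)]
      · rw [h0 y hy]
        exact hle x
    refine ⟨fun x y hxy => hcmp x y fun h => hg x y hxy h, fun x => ?_⟩
    obtain ⟨W, hW, hc, hWe⟩ := hl e x
    exact ⟨W, hW, hc, hcmp x W hWe⟩
  · right; left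
    intro y
    obtain ⟨S, hS, hSi, hv⟩ := h (g y)
    refine ⟨S, hS, hSi, fun y' hy' => ?_⟩
    have h1 := hv (g y') fun j hj => by
      have := hy' j hj
      linarith
    show -c.val i (g y') ≤ -c.val i (g y)
    linarith
  · right; right
    intro y
    obtain ⟨S, hS, hSi, hv⟩ := h (g y)
    refine ⟨S, hS, hSi, fun y' hy' => ?_⟩
    have h1 := hv (g y') fun j hj => by
      have := hy' j hj
      linarith
    show -c.val i (g y) ≤ -c.val i (g y')
    linarith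

/-- The lower bound with explicit integer parameters. -/
theorem explicit {n k V D M g ρ L p q s : ℕ} (hk : 3 ≤ k) (hp : 1 ≤ p) (hq : 1 ≤ q) (hL : 1 ≤ L)
    (hV : 1 ≤ V) (hD : 1 ≤ D) (hρ1 : 1 ≤ ρ) (hg : 1 ≤ g)
    (hN : 5 * ((q + 1) * L) ≤ 3 * (3 * V))
    (hH : 12 ^ 3 * 3 ^ 5 * 3 ^ (3 * 3) * M ^ 3 * ((q + 1) * L) ≤ V ^ (3 + 1))
    (hρ : (q + 1) * L < 2 ^ ρ)
    (hR : 8 * p * (4 * ρ * (2 * (g * ρ))) ≤ D ^ k)
    (hG : (M * D ^ k + 1) ^ ((q + 1) * L) * 4 ^ L ≤ 2 ^ g)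
    (hM : 2 * (D ^ k) ^ (3 * V) ≤ 2 ^ M)
    (hn : 3 * V * (k * (2 * D + 1)) + 2 * (M * (k * D)) ≤ n)
    (c : Circuit (Clause n k) s p q) (out : Fin s) (θ : ℝ)
    (hC : ∀ F, θ ≤ c.val out F ↔ ¬ Satisfiable F) : 4 ^ L ≤ 2 * s := by
  have : NeZero D := ⟨by omega⟩
  obtain ⟨H, hexp⟩ := H13.exists_expanding (K := 3) (V := V) (M := M) (c := (q + 1) * L) (β := 3)
    (a := 5) le_rfl (by norm_num) (by norm_num) hV hN hH
  obtain ⟨G, hGa, hGl, hGs⟩ := encode (n := n) (k := k) (V := V) (D := D) (M := M) hk hn H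
  set qq : ℕ := 2 * (g * ρ) with hqq
  have hq0 : 0 < qq := by
    have : 0 < g * ρ := Nat.mul_pos hg hρ1
    omega
  have : NeZero qq := ⟨hq0.ne'⟩
  let X := Fin M × (Fin k → Fin D)
  let A := Fin 3 × Fin V → (Fin k → Fin D)
  let Ω := Fin g → Fin ρ → X → Fin qq
  let N : Ω → Finset X := fun w => Neg w
  let Y : A → Finset X := fun α => Yh H α
  have hcardΓ : (Fintype.card (Fin k → Fin D) : ℝ) = (D : ℝ) ^ k := by simp
  have hρ' : (1 : ℝ) ≤ ρ := by exact_mod_cast hρ1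
  have hq' : (1 : ℝ) ≤ qq := by exact_mod_cast hq0
  have hdata : Data N Y L ((q + 1) * L) (p : ℝ) ((4 * ρ : ℝ) * qq) ((D : ℝ) ^ k) ((1 / 2) ^ g) :=
    { hL := hL
      hp := by exact_mod_cast hp
      hR := by nlinarith
      hQ := by
        have : ((8 * p * (4 * ρ * qq) : ℕ) : ℝ) ≤ ((D ^ k : ℕ) : ℝ) := by exact_mod_cast hR
        push_cast at this
        exact this
      hδ := by positivity
      hδ1 := pow_lt_one₀ (by norm_num) (by norm_num) (by omega)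
      hΩ := Fintype.card_pos
      hA := Fintype.card_pos
      hcover := fun J hJ hsize hsp => H13.neg_cover hq0 hρ1 hρ J hJ hsize hsp
      hpos := fun S hS => by
        have h1 := hash_spread (Γ := Fin k → Fin D) (uniq_of_expanding hexp) S hS
        rw [hcardΓ] at h1
        exact h1
      hneg := by
        have h1 := H13.card_small_sets (X := X) ((q + 1) * L)
        have h2 : Fintype.card X = M * D ^ k := by
          simp [X]
        rw [h2] at h1
        have h3 : (univ.filter (fun T : Finset X => T.card ≤ (q + 1) * L)).card * 4 ^ L ≤ 2 ^ g :=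
          (Nat.mul_le_mul_right _ h1).trans hG
        have h4 : ((univ.filter (fun T : Finset X => T.card ≤ (q + 1) * L)).card : ℝ) * 4 ^ L
            ≤ 2 ^ g := by exact_mod_cast h3
        rw [div_pow, div_pow, one_pow, one_pow, mul_one_div, div_le_div_iff₀ (by positivity)
          (by positivity)]
        linarith }
  refine core hdata hq le_rfl (fun i y => -c.val i (G y)) (dgate c G hGa hGl) out (-θ) ?_ ?_
  · intro α
    have h1 : Satisfiable (G (Yh H α)) := (hGs _).2 ⟨α, Finset.Subset.refl _⟩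
    have h2 : ¬ θ ≤ c.val out (G (Yh H α)) := fun h => (hC _).1 h h1
    rw [not_le] at h2
    exact neg_lt_neg h2
  · have h1 : cnt (fun w : Ω => -θ < -c.val out (G (N w)))
        ≤ cnt (fun w : Ω => ∃ α ∈ (univ : Finset A), Yh H α ⊆ Neg w) := by
      apply H13.cnt_mono
      intro w hw
      have h2 : ¬ θ ≤ c.val out (G (N w)) := by
        rw [not_le]
        exact neg_lt_neg_iff.1 hw
      rw [hC, not_not, hGs] at h2
      obtain ⟨α, hα⟩ := h2
      exact ⟨α, Finset.mem_univ _, hα⟩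
    refine h1.trans ((H13.cnt_exists _ _).trans ?_)
    have h2 : ∀ α ∈ (univ : Finset A), cnt (fun w : Ω => Yh H α ⊆ Neg w)
        ≤ (1 / 2) ^ M * Fintype.card Ω := by
      intro α _
      have := H13.neg_contains (g := g) (ρ := ρ) (q := qq) hqq hq0 (Yh H α)
      rwa [card_Yh] at this
    refine (Finset.sum_le_sum h2).trans ?_
    rw [Finset.sum_const, nsmul_eq_mul, Finset.card_univ, ← mul_assoc]
    apply mul_le_mul_of_nonneg_right _ (by positivity)
    have h3 : (Fintype.card A : ℝ) = ((D : ℝ) ^ k) ^ (3 * V) := by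
      simp only [A, Fintype.card_fun, Fintype.card_fin, Fintype.card_prod]
      push_cast
      ring
    rw [h3, div_pow, one_pow, mul_one_div, div_le_div_iff₀ (by positivity) (by norm_num)]
    have h4 : ((2 * (D ^ k) ^ (3 * V) : ℕ) : ℝ) ≤ ((2 ^ M : ℕ) : ℝ) := by exact_mod_cast hM
    push_cast at h4
    linarith

theorem main (k : ℕ) (hk : 3 ≤ k) :
    ∃ C : ℕ, ∀ n p q L s : ℕ, 1 ≤ p → 1 ≤ q → 1 ≤ L →
      C * (p * (q * L) ^ (k + 1) * (Nat.log 2 n + 1) ^ C) ≤ n ^ k →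
      ∀ (c : Circuit (Clause n k) s p q) (out : Fin s) (θ : ℝ),
        (∀ F, θ ≤ c.val out F ↔ ¬ Satisfiable F) → 4 ^ L ≤ 2 * s := by
  obtain ⟨C, hC⟩ := params k hk
  refine ⟨C, fun n p q L s hp hq hL h c out θ hc => ?_⟩
  obtain ⟨V, D, M, g, ρ, hV, hD, hρ1, hg, hN, hH, hρ, hR, hG, hM, hn⟩ := hC n p q L hp hq hL h
  exact explicit hk hp hq hL hV hD hρ1 hg hN hH hρ hR hG hM hn c out θ hc

theorem main_exp (k : ℕ) (hk : 3 ≤ k) (c a E : ℝ) (hE : 0 ≤ E) (h : c + (k + 1) * (a + E) < k) :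
    ∃ n₀ : ℕ, ∀ n ≥ n₀, ∀ s p q : ℕ, 1 ≤ p → 1 ≤ q → (p : ℝ) ≤ (n : ℝ) ^ c →
      (q : ℝ) ≤ (n : ℝ) ^ a →
      ∀ (C : Circuit (Clause n k) s p q) (out : Fin s) (θ : ℝ),
        (∀ F, θ ≤ C.val out F ↔ ¬ Satisfiable F) → (2 : ℝ) ^ ((n : ℝ) ^ E) < s := by
  obtain ⟨C₀, hC₀⟩ := main k hk
  obtain ⟨n₀, hn₀⟩ := exponents k C₀ c a E hE h
  refine ⟨n₀, fun n hn s p q hp hq hpc hqa C out θ hC => ?_⟩
  obtain ⟨L, hL, hLE, hcond⟩ := hn₀ n hn p q hpc hqa
  have h1 := hC₀ n p q L s hp hq hL hcond C out θ hC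
  have h2 : ((4 ^ L : ℕ) : ℝ) ≤ ((2 * s : ℕ) : ℝ) := by exact_mod_cast h1
  push_cast at h2
  have hE0 : (0 : ℝ) ≤ (n : ℝ) ^ E := by positivity
  have hL1 : (1 : ℝ) ≤ L := by exact_mod_cast hL
  have h3 : (2 : ℝ) ^ ((n : ℝ) ^ E) ≤ 2 ^ ((L : ℝ) - 1) :=
    Real.rpow_le_rpow_of_exponent_le (by norm_num) (by linarith)
  have h4 : (2 : ℝ) ^ ((L : ℝ) - 1) < 2 ^ (2 * (L : ℝ) - 1) :=
    Real.rpow_lt_rpow_of_exponent_lt (by norm_num) (by linarith)
  have h5 : (2 : ℝ) ^ (2 * (L : ℝ) - 1) * 2 = 4 ^ L := by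
    rw [← Real.rpow_add_one (by norm_num), sub_add_cancel, Real.rpow_mul (by norm_num),
      Real.rpow_natCast]
    norm_num
  linarith

end Pool.Agent.H95.MT
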