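import Pool.Agent.H95.MT.Star

/-!
ROW Nxt (80 lines).  The next pieces.

Let `G = univ.filter (fun Z => Z.card ≤ K - U.card ∧ acc 𝓕 (U ∪ Z))`. It is `Closed N (K - U.card) δ`: if `T.card ≤ K - U.card` and
`cnt (¬ acc G (N w ∪ T)) ≤ δ |Ω|`, then `acc G (N w ∪ T)` implies `acc 𝓕 (N w ∪ (U ∪ T))` (`Z ⊆ N w ∪ T`, `acc 𝓕 (U ∪ Z)`, `U ∪ Z ⊆ N w ∪ (U ∪ T)`), so
`cnt (¬ acc 𝓕 (N w ∪ (U ∪ T))) ≤ δ |Ω|`, `|U ∪ T| ≤ K`, hence `acc 𝓕 (U ∪ T)`, so `T ∈ G` and `acc G T`.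
Take `𝓜 = (H13.mins G).filter (fun Z => Z.card ≤ K0)`.
* `Z ∈ 𝓜` is nonempty: otherwise `acc 𝓕 (U ∪ ∅)`, against `hacc`. Disjoint from `U`: `Z \ U ∈ G` (`U ∪ (Z \ U) = U ∪ Z`), so `Z \ U = Z` by minimality.
* count: `H13.mins_count N (K - U.card) δ R hR _ G _ a` (`hcover` for `K - U.card` follows from `hcover` for `K`).
* `W ∈ 𝓕`, `|W| ≤ K0`: `W ∈ G` (`|W| ≤ K - |U|`, `W ⊆ U ∪ W`), so `acc G W`, and `H13.acc_mins` gives `Z ∈ mins G`, `Z ⊆ W`, `|Z| ≤ |W| ≤ K0`.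
-/

namespace Pool.Agent.H95.MT

open Finset Classical
open H13 (cnt acc Closed)

variable {X : Type} [Fintype X] [DecidableEq X] {Ω : Type} [Fintype Ω]

theorem next_pieces (N : Ω → Finset X) (K : ℕ) (δ R : ℝ) (hR : 1 ≤ R)
    (hcover : ∀ J : Finset (Finset X), J.Nonempty → (∀ S ∈ J, S.card ≤ K) →
      (∀ U : Finset X, ((J.filter (fun S => U ⊆ S)).card : ℝ) * R ^ U.card ≤ J.card) →
      cnt (fun w => ∀ S ∈ J, ¬ S ⊆ N w) ≤ δ * Fintype.card Ω)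
    (𝓕 : Finset (Finset X)) (hcl : Closed N K δ 𝓕) (U : Finset X) (hacc : ¬ acc 𝓕 U)
    (K0 : ℕ) (hK : K0 + U.card ≤ K) :
    ∃ 𝓜 : Finset (Finset X), (∀ Z ∈ 𝓜, Z.Nonempty ∧ Disjoint U Z ∧ Z.card ≤ K0) ∧
      (∀ a, a ≤ K0 → ((𝓜.filter (fun Z => Z.card = a)).card : ℝ) ≤ R ^ a) ∧
      ∀ W ∈ 𝓕, W.card ≤ K0 → ∃ Z ∈ 𝓜, Z ⊆ W := by
  set G : Finset (Finset X) := univ.filter (fun Z => Z.card ≤ K - U.card ∧ acc 𝓕 (U ∪ Z)) with hG
  have hmG : ∀ Z, Z ∈ G ↔ Z.card ≤ K - U.card ∧ acc 𝓕 (U ∪ Z) := by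
    intro Z
    rw [hG, mem_filter]
    simp
  have hclG : Closed N (K - U.card) δ G := by
    intro T hT hcnt
    refine ⟨T, (hmG T).2 ⟨hT, ?_⟩, Finset.Subset.refl _⟩
    apply hcl (U ∪ T)
    · have := Finset.card_union_le U T
      omega
    · refine le_trans (H13.cnt_mono fun w hw => ?_) hcnt
      intro h
      obtain ⟨Z, hZ, hZs⟩ := h
      obtain ⟨S, hS, hSs⟩ := ((hmG Z).1 hZ).2
      apply hw
      refine ⟨S, hS, hSs.trans ?_⟩
      intro e he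
      rw [mem_union] at he
      rcases he with he | he
      · exact mem_union_right _ (mem_union_left _ he)
      · have := hZs he
        rw [mem_union] at this
        rcases this with h1 | h1
        · exact mem_union_left _ h1
        · exact mem_union_right _ (mem_union_right _ h1)
  refine ⟨(H13.mins G).filter (fun Z => Z.card ≤ K0), ?_, ?_, ?_⟩
  · intro Z hZ
    rw [mem_filter, H13.mem_mins] at hZ
    obtain ⟨⟨hZG, hmin⟩, hZc⟩ := hZ
    refine ⟨?_, ?_, hZc⟩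
    · rw [Finset.nonempty_iff_ne_empty]
      rintro rfl
      apply hacc
      have := ((hmG ∅).1 hZG).2
      rwa [union_empty] at this
    · have h1 : Z \ U ∈ G := by
        rw [hmG]
        refine ⟨(card_le_card sdiff_subset).trans ((hmG Z).1 hZG).1, ?_⟩
        rw [Finset.union_sdiff_self_eq_union]
        exact ((hmG Z).1 hZG).2
      have h2 := hmin _ h1 sdiff_subset
      rw [← h2]
      exact disjoint_sdiff
  · intro a ha
    have h1 : ((H13.mins G).filter (fun Z => Z.card ≤ K0)).filter (fun Z => Z.card = a) =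
        (H13.mins G).filter (fun Z => Z.card = a) := by
      ext Z
      simp only [mem_filter]
      constructor
      · rintro ⟨⟨h, _⟩, h2⟩
        exact ⟨h, h2⟩
      · rintro ⟨h, h2⟩
        exact ⟨⟨h, by omega⟩, h2⟩
    rw [h1]
    refine H13.mins_count N (K - U.card) δ R hR ?_ G hclG a (by omega)
    intro J hJ hJc hJs
    exact hcover J hJ (fun S hS => (hJc S hS).trans (Nat.sub_le _ _)) hJs
  · intro W hW hWc
    have hWG : W ∈ G := (hmG W).2 ⟨by omega, W, hW, subset_union_right⟩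
    obtain ⟨Z, hZ, hZW⟩ := H13.acc_mins G W ⟨W, hWG, Finset.Subset.refl _⟩
    exact ⟨Z, mem_filter.2 ⟨hZ, (card_le_card hZW).trans hWc⟩, hZW⟩

end Pool.Agent.H95.MT
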