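import Pool.Agent.H13.MonoHyper

/-!
The monotone function generated by the values on small sets.
-/

namespace Pool.Agent.H95.MT

open Finset Classical

variable {X : Type} [Fintype X] [DecidableEq X]

/-- maximum of `F` over the subsets of `x` with at most `L` elements -/
noncomputable def star (L : ℕ) (F : Finset X → ℝ) (x : Finset X) : ℝ :=
  (x.powerset.filter (fun W => W.card ≤ L)).sup' ⟨∅, by simp⟩ F

/-- the small sets on which `F` is larger than `t` -/
noncomputable def lev (K : ℕ) (F : Finset X → ℝ) (t : ℝ) : Finset (Finset X) :=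
  univ.filter fun W => W.card ≤ K ∧ t < F W

omit [Fintype X] in
theorem le_star {L : ℕ} (F : Finset X → ℝ) {W x : Finset X} (hW : W ⊆ x) (hc : W.card ≤ L) :
    F W ≤ star L F x := by
  unfold star
  exact Finset.le_sup' F (Finset.mem_filter.2 ⟨Finset.mem_powerset.2 hW, hc⟩)

omit [Fintype X] in
theorem star_eq {L : ℕ} (F : Finset X → ℝ) (x : Finset X) :
    ∃ W, W ⊆ x ∧ W.card ≤ L ∧ star L F x = F W := by
  unfold star
  obtain ⟨W, hW, h⟩ := Finset.exists_mem_eq_sup' (s := x.powerset.filter (fun W => W.card ≤ L))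
    ⟨∅, by simp⟩ F
  rw [Finset.mem_filter, Finset.mem_powerset] at hW
  exact ⟨W, hW.1, hW.2, h⟩

omit [Fintype X] in
theorem star_mono {L : ℕ} (F : Finset X → ℝ) {x y : Finset X} (h : x ⊆ y) :
    star L F x ≤ star L F y := by
  obtain ⟨W, hW, hc, he⟩ := star_eq (L := L) F x
  rw [he]
  exact le_star F (hW.trans h) hc

omit [Fintype X] in
theorem star_le {L L' : ℕ} (h : L ≤ L') (F : Finset X → ℝ) (x : Finset X) :
    star L F x ≤ star L' F x := by
  obtain ⟨W, hW, hc, he⟩ := star_eq (L := L) F x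
  rw [he]
  exact le_star F hW (hc.trans h)

theorem acc_lev {K : ℕ} {F : Finset X → ℝ} {t : ℝ} {x : Finset X} :
    H13.acc (lev K F t) x ↔ t < star K F x := by
  constructor
  · rintro ⟨W, hW, hWx⟩
    have h := (Finset.mem_filter.1 hW).2
    exact h.2.trans_le (le_star F hWx h.1)
  · intro h
    obtain ⟨W, hW, hc, he⟩ := star_eq (L := K) F x
    rw [he] at h
    exact ⟨W, Finset.mem_filter.2 ⟨Finset.mem_univ _, hc, h⟩, hW⟩

theorem mem_lev {K : ℕ} {F : Finset X → ℝ} {t : ℝ} {W : Finset X} :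
    W ∈ lev K F t ↔ W.card ≤ K ∧ t < F W := by
  unfold lev
  rw [Finset.mem_filter]
  exact ⟨fun h => h.2, fun h => ⟨Finset.mem_univ _, h⟩⟩

variable {Ω A : Type} [Fintype Ω] [Fintype A]

/-- all level families are closed -/
def Cl (N : Ω → Finset X) (K : ℕ) (δ : ℝ) (F : Finset X → ℝ) : Prop :=
  ∀ t, H13.Closed N K δ (lev K F t)

/-- The data needed by the approximation method. -/
structure Data (N : Ω → Finset X) (Y : A → Finset X) (L K : ℕ) (p R Q δ : ℝ) : Prop where
  hL : 1 ≤ L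
  hp : 1 ≤ p
  hR : 1 ≤ R
  hQ : 8 * p * R ≤ Q
  hδ : 0 ≤ δ
  hδ1 : δ < 1
  hΩ : 0 < Fintype.card Ω
  hA : 0 < Fintype.card A
  hcover : ∀ J : Finset (Finset X), J.Nonempty → (∀ S ∈ J, S.card ≤ K) →
      (∀ U : Finset X, ((J.filter (fun S => U ⊆ S)).card : ℝ) * R ^ U.card ≤ J.card) →
      H13.cnt (fun w => ∀ S ∈ J, ¬ S ⊆ N w) ≤ δ * Fintype.card Ω
  hpos : ∀ S : Finset X, S.card ≤ K →
      H13.cnt (fun α => S ⊆ Y α) * Q ^ S.card ≤ Fintype.card A
  hneg : ((univ.filter (fun T : Finset X => T.card ≤ K)).card : ℝ) * δ ≤ (1 / 4) ^ L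

end Pool.Agent.H95.MT
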